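import Mathlib

/-!
# Scaling limits of integrals along a ray
-/

set_option autoImplicit false

open Complex MeasureTheory Set Filter Topology

namespace Pool.Agent.Shadow75

/-- Scaled dominated convergence.  `λ⁻¹ ∫_0^r f_k(t) dt → ∫_0^∞ q(s) ds` if
`f_k (λ_k s) → q s` and `‖f_k t‖ ≤ g (t / λ_k)` with `g` integrable. -/
theorem scaled_tendsto {ι : Type*} {l : Filter ι} [l.IsCountablyGenerated]
    {f : ι → ℝ → ℂ} {lam : ι → ℝ} {r : ι → ℝ} {q : ℝ → ℂ} {g : ℝ → ℝ}
    (hlam : ∀ᶠ k in l, 0 < lam k) (hr : ∀ᶠ k in l, 0 < r k)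
    (hlim : Tendsto (fun k => r k / lam k) l atTop)
    (hg : IntegrableOn g (Ioi 0)) (hg0 : ∀ s ∈ Ioi (0:ℝ), 0 ≤ g s)
    (hpt : ∀ s ∈ Ioi (0:ℝ), Tendsto (fun k => f k (lam k * s)) l (𝓝 (q s)))
    (hdom : ∀ᶠ k in l, ∀ t ∈ Ioc (0:ℝ) (r k), ‖f k t‖ ≤ g (t / lam k))
    (hmeas : ∀ᶠ k in l, AEStronglyMeasurable (fun s => f k (lam k * s))
      (volume.restrict (Ioi (0:ℝ)))) :
    Tendsto (fun k => (lam k : ℂ)⁻¹ * ∫ t in (0:ℝ)..(r k), f k t) l
      (𝓝 (∫ s in Ioi (0:ℝ), q s)) := by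
  -- indicator form
  have key : ∀ᶠ k in l, (lam k : ℂ)⁻¹ * ∫ t in (0:ℝ)..(r k), f k t
      = ∫ s in Ioi (0:ℝ), (Ioc 0 (r k / lam k)).indicator (fun s => f k (lam k * s)) s := by
    filter_upwards [hlam, hr] with k hk hrk
    rw [integral_indicator measurableSet_Ioc, Measure.restrict_restrict measurableSet_Ioc]
    have hsub : Ioc (0:ℝ) (r k / lam k) ∩ Ioi 0 = Ioc 0 (r k / lam k) :=
      inter_eq_left.mpr fun x hx => hx.1
    rw [hsub, ← intervalIntegral.integral_of_le (by positivity)]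
    have h := intervalIntegral.integral_comp_mul_left (a := (0:ℝ)) (b := r k / lam k)
      (fun t => f k t) hk.ne'
    rw [h, mul_zero, mul_div_cancel₀ _ hk.ne']
    rw [Complex.real_smul]
    push_cast
    rfl
  refine Tendsto.congr' (EventuallyEq.symm key) ?_
  apply tendsto_integral_filter_of_dominated_convergence g
  · filter_upwards [hmeas] with k hk
    exact hk.indicator measurableSet_Ioc
  · filter_upwards [hdom, hlam] with k hk hlk
    rw [ae_restrict_iff' measurableSet_Ioi]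
    refine Eventually.of_forall fun s hs => ?_
    by_cases h : s ∈ Ioc (0:ℝ) (r k / lam k)
    · rw [indicator_of_mem h]
      have h1 : lam k * s ∈ Ioc (0:ℝ) (r k) := by
        refine ⟨mul_pos hlk h.1, ?_⟩
        have := h.2
        rw [le_div_iff₀ hlk] at this
        linarith
      have h2 := hk _ h1
      rwa [mul_div_cancel_left₀ _ hlk.ne'] at h2
    · rw [indicator_of_notMem h, norm_zero]
      exact hg0 s hs
  · exact hg
  · rw [ae_restrict_iff' measurableSet_Ioi]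
    refine Eventually.of_forall fun s hs => ?_
    refine (hpt s hs).congr' ?_
    filter_upwards [hlim.eventually_ge_atTop s] with k hk
    rw [indicator_of_mem]
    exact ⟨hs, hk⟩

/-- complex Gaussian on the half line -/
theorem integral_gauss_half {b : ℂ} (hb : 0 < b.re) :
    ∫ s in Ioi (0:ℝ), Complex.exp (-b * (s:ℂ) ^ 2) = (Real.pi / b) ^ (1 / 2 : ℂ) / 2 :=
  integral_gaussian_complex_Ioi hb

/-- the difference of two half Gaussians along the rays `u`, `v` does not vanish: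
with `b = - c u^2`, `Re b > 0` -/
theorem gauss_ray_sq {u c : ℂ} (h : (c * u ^ 2).re < 0) :
    (u * ∫ s in Ioi (0:ℝ), Complex.exp (c * u ^ 2 * (s:ℂ) ^ 2)) ^ 2 = -Real.pi / (4 * c) := by
  have hb : 0 < (-(c * u ^ 2)).re := by
    rw [Complex.neg_re]
    linarith
  have h1 := integral_gauss_half hb
  have h2 : ∀ s : ℝ, Complex.exp (c * u ^ 2 * (s:ℂ) ^ 2)
      = Complex.exp (-(-(c * u ^ 2)) * (s:ℂ) ^ 2) := by
    intro s
    congr 1
    ring
  simp only [h2]
  rw [h1]
  have hc : c ≠ 0 := by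
    intro h0
    rw [h0] at h
    simp at h
  have hu : u ≠ 0 := by
    intro h0
    rw [h0] at h
    simp at h
  have h3 : ((Real.pi / (-(c * u ^ 2)) : ℂ) ^ (1 / 2 : ℂ)) ^ 2 = Real.pi / (-(c * u ^ 2)) := by
    rw [← Complex.cpow_nat_mul]
    norm_num
  rw [mul_pow, div_pow, h3]
  field_simp
  norm_num

end Pool.Agent.Shadow75
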