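import Mathlib

/-!
# Locating zeros of holomorphic functions
-/

set_option autoImplicit false

open Complex Set Filter Topology Metric

namespace Pool.Agent.Shadow75

/-- If `|f| ≥ m` on the circle and `|f(c)| < m` at the centre, `f` has a zero in the disc. -/
theorem exists_zero_of_norm_lt {f : ℂ → ℂ} {c : ℂ} {r m : ℝ} (hr : 0 < r)
    (hf : DiffContOnCl ℂ f (ball c r)) (hm : ∀ z ∈ sphere c r, m ≤ ‖f z‖) (h0 : ‖f c‖ < m) :
    ∃ z ∈ ball c r, f z = 0 := by
  by_contra hne
  push Not at hne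
  have hm0 : 0 < m := (norm_nonneg _).trans_lt h0
  have hne2 : ∀ z ∈ closure (ball c r), f z ≠ 0 := by
    intro z hz
    rw [closure_ball c hr.ne'] at hz
    rcases lt_or_eq_of_le (mem_closedBall.mp hz) with h | h
    · exact hne z (mem_ball.mpr h)
    · intro h1
      have := hm z (mem_sphere.mpr h)
      rw [h1, norm_zero] at this
      linarith
  have hinv : DiffContOnCl ℂ (fun z => (f z)⁻¹) (ball c r) := hf.inv hne2
  have hb := Complex.norm_le_of_forall_mem_frontier_norm_le isBounded_ball hinv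
    (C := m⁻¹) (by
      intro z hz
      rw [frontier_ball c hr.ne'] at hz
      rw [norm_inv]
      exact inv_anti₀ hm0 (hm z hz)) (z := c) (subset_closure (mem_ball_self hr))
  rw [norm_inv] at hb
  have h1 : 0 < ‖f c‖ := norm_pos_iff.mpr (hne c (mem_ball_self hr))
  have h2 : m ≤ ‖f c‖ := by
    rwa [inv_le_inv₀ h1 hm0] at hb
  linarith

/-- Hurwitz: a zero of a not identically vanishing limit attracts zeros. -/
theorem hurwitz {ι : Type*} {l : Filter ι} {f : ι → ℂ → ℂ} {g : ℂ → ℂ} {s0 : ℂ} {r : ℝ}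
    (hr : 0 < r) (hf : ∀ᶠ k in l, DiffContOnCl ℂ (f k) (ball s0 r))
    (hg : DifferentiableOn ℂ g (ball s0 r))
    (hlim : TendstoUniformlyOn f g l (ball s0 r))
    (hg0 : g s0 = 0) (hne : ∃ w ∈ ball s0 r, g w ≠ 0) {ε : ℝ} (hε : 0 < ε) :
    ∀ᶠ k in l, ∃ s ∈ ball s0 ε, f k s = 0 := by
  have han : AnalyticOnNhd ℂ g (ball s0 r) := hg.analyticOnNhd isOpen_ball
  have hev : ∀ᶠ z in 𝓝[≠] s0, g z ≠ 0 := by
    rcases (han s0 (mem_ball_self hr)).eventually_eq_zero_or_eventually_ne_zero with h | h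
    · exfalso
      obtain ⟨w, hw, hgw⟩ := hne
      exact hgw (han.eqOn_zero_of_preconnected_of_eventuallyEq_zero
        (convex_ball s0 r).isPreconnected (mem_ball_self hr) h hw)
    · exact h
  rw [eventually_nhdsWithin_iff, Metric.eventually_nhds_iff] at hev
  obtain ⟨δ, hδ, hev⟩ := hev
  set ρ := min (min (r / 2) (ε / 2)) (δ / 2) with hρ
  have hρ0 : 0 < ρ := by positivity
  have hρr : ρ < r := by
    have : ρ ≤ r / 2 := (min_le_left _ _).trans (min_le_left _ _)
    linarith
  have hρε : ρ < ε := by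
    have : ρ ≤ ε / 2 := (min_le_left _ _).trans (min_le_right _ _)
    linarith
  have hρδ : ρ < δ := by
    have : ρ ≤ δ / 2 := min_le_right _ _
    linarith
  have hsub : closedBall s0 ρ ⊆ ball s0 r := closedBall_subset_ball hρr
  -- minimum on the sphere
  have hcont : ContinuousOn (fun z => ‖g z‖) (sphere s0 ρ) :=
    (hg.continuousOn.mono (sphere_subset_closedBall.trans hsub)).norm
  obtain ⟨z1, hz1, hmin⟩ := (isCompact_sphere s0 ρ).exists_isMinOn
    (NormedSpace.sphere_nonempty.mpr hρ0.le) hcont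
  have hm0 : 0 < ‖g z1‖ := by
    rw [norm_pos_iff]
    have hd : dist z1 s0 = ρ := mem_sphere.mp hz1
    apply hev (by rw [hd]; exact hρδ)
    intro h
    rw [mem_singleton_iff] at h
    rw [h, dist_self] at hd
    linarith
  rw [Metric.tendstoUniformlyOn_iff] at hlim
  filter_upwards [hf, hlim (‖g z1‖ / 2) (by positivity)] with k hfk hk
  have h1 : DiffContOnCl ℂ (f k) (ball s0 ρ) := hfk.mono (ball_subset_ball hρr.le)
  obtain ⟨s, hs, hs0⟩ := exists_zero_of_norm_lt hρ0 h1 (m := ‖g z1‖ / 2) (by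
      intro z hz
      have h2 := hk z (hsub (sphere_subset_closedBall hz))
      rw [dist_eq_norm] at h2
      have h3 : ‖g z1‖ ≤ ‖g z‖ := hmin hz
      have h4 : ‖g z‖ ≤ ‖g z - f k z‖ + ‖f k z‖ := by
        calc ‖g z‖ = ‖(g z - f k z) + f k z‖ := by ring_nf
          _ ≤ _ := norm_add_le _ _
      linarith) (by
      have h2 := hk s0 (mem_ball_self hr)
      rw [dist_eq_norm, hg0, zero_sub, norm_neg] at h2
      exact h2)
  exact ⟨s, ball_subset_ball hρε.le hs, hs0⟩

/-- two exponentials: there is a zero, and its modulus is bounded by data -/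
theorem exists_exp_zero {a1 a2 c1 c2 : ℂ} (h1 : a1 ≠ 0) (h2 : a2 ≠ 0) (hc : c1 ≠ c2) :
    ∃ s : ℂ, a1 * Complex.exp (c1 * s) + a2 * Complex.exp (c2 * s) = 0 := by
  have hc' : c1 - c2 ≠ 0 := sub_ne_zero.mpr hc
  refine ⟨Complex.log (-(a2 / a1)) / (c1 - c2), ?_⟩
  set s := Complex.log (-(a2 / a1)) / (c1 - c2) with hs
  have h3 : Complex.exp (c1 * s) = Complex.exp (c2 * s) * (-(a2 / a1)) := by
    have h4 : -(a2 / a1) ≠ 0 := neg_ne_zero.mpr (div_ne_zero h2 h1)
    rw [← Complex.exp_log h4, ← Complex.exp_add]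
    congr 1
    rw [hs]
    field_simp
    ring
  rw [h3]
  field_simp
  ring

/-- the sum of two exponentials with different rates does not vanish identically on a ball -/
theorem exp_sum_ne {a1 a2 c1 c2 : ℂ} (h1 : a1 ≠ 0) (hc : c1 ≠ c2) {s0 : ℂ} {r : ℝ}
    (hr : 0 < r) : ∃ w ∈ ball s0 r, a1 * Complex.exp (c1 * w) + a2 * Complex.exp (c2 * w) ≠ 0 := by
  by_contra h
  push Not at h
  -- then `a1 exp((c1-c2) w) = -a2` on the ball; differentiate
  set g : ℂ → ℂ := fun w => a1 * Complex.exp ((c1 - c2) * w) with hg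
  have hgc : ∀ w ∈ ball s0 r, g w = -a2 := by
    intro w hw
    have h3 := h w hw
    have h4 : Complex.exp (c1 * w) = Complex.exp ((c1 - c2) * w) * Complex.exp (c2 * w) := by
      rw [← Complex.exp_add]
      congr 1
      ring
    rw [h4] at h3
    have h5 : (a1 * Complex.exp ((c1 - c2) * w) + a2) * Complex.exp (c2 * w) = 0 := by
      linear_combination h3
    rcases mul_eq_zero.mp h5 with h6 | h6
    · simp only [hg]
      linear_combination h6
    · exact absurd h6 (Complex.exp_ne_zero _)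
  have hd : HasDerivAt g (a1 * (Complex.exp ((c1 - c2) * s0) * (c1 - c2))) s0 := by
    have h7 : HasDerivAt (fun w : ℂ => (c1 - c2) * w) (c1 - c2) s0 := by
      simpa using (hasDerivAt_id s0).const_mul (c1 - c2)
    exact (h7.cexp).const_mul a1
  have hev : g =ᶠ[𝓝 s0] fun _ => -a2 := by
    filter_upwards [ball_mem_nhds s0 hr] with w hw
    exact hgc w hw
  have h8 := hd.unique ((hasDerivAt_const s0 (-a2)).congr_of_eventuallyEq hev)
  rcases mul_eq_zero.mp h8 with h9 | h9
  · exact h1 h9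
  · rcases mul_eq_zero.mp h9 with h10 | h10
    · exact Complex.exp_ne_zero _ h10
    · exact hc (sub_eq_zero.mp h10)

end Pool.Agent.Shadow75
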