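import Pool.Agent.Shadow75.RayExp

/-!
# Airy-type functions do not vanish off the negative axis
-/

set_option autoImplicit false

open Complex MeasureTheory Set Filter Topology
open scoped ComplexConjugate

namespace Pool.Agent.Shadow75

/-- `A u v ζ = ∫_{ray u} - ∫_{ray v}` of `exp (t^3/3 - ζ t)` -/
noncomputable def A (u v : ℂ) (ζ : ℂ) : ℂ := G u 0 ζ - G v 0 ζ

noncomputable def A1 (u v : ℂ) (ζ : ℂ) : ℂ := -(G u 1 ζ - G v 1 ζ)

variable {u v : ℂ}

theorem A_hasDerivAt (hu : (u ^ 3).re < 0) (hv : (v ^ 3).re < 0) (ζ : ℂ) :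
    HasDerivAt (A u v) (A1 u v ζ) ζ := by
  have h := (G_hasDerivAt hu 0 ζ).sub (G_hasDerivAt hv 0 ζ)
  refine h.congr_deriv ?_
  unfold A1
  simp only [zero_add]
  ring

theorem A1_hasDerivAt (hu : (u ^ 3).re < 0) (hv : (v ^ 3).re < 0) (ζ : ℂ) :
    HasDerivAt (A1 u v) (ζ * A u v ζ) ζ := by
  have h := ((G_hasDerivAt hu 1 ζ).sub (G_hasDerivAt hv 1 ζ)).neg
  refine h.congr_deriv ?_
  have h1 := G_ode hu ζ
  have h2 := G_ode hv ζ
  unfold A
  simp only [Nat.reduceAdd]
  linear_combination h1 - h2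

theorem A_tendsto (hu : (u ^ 3).re < 0) (hv : (v ^ 3).re < 0) (hu1 : 0 < u.re) (hv1 : 0 < v.re)
    (ζ : ℂ) : Tendsto (fun x : ℝ => A u v (ζ + x)) atTop (𝓝 0) := by
  simpa [A] using (G_tendsto_zero hu hu1 0 ζ).sub (G_tendsto_zero hv hv1 0 ζ)

theorem A1_tendsto (hu : (u ^ 3).re < 0) (hv : (v ^ 3).re < 0) (hu1 : 0 < u.re) (hv1 : 0 < v.re)
    (ζ : ℂ) : Tendsto (fun x : ℝ => A1 u v (ζ + x)) atTop (𝓝 0) := by
  simpa [A1] using ((G_tendsto_zero hu hu1 1 ζ).sub (G_tendsto_zero hv hv1 1 ζ)).neg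

/-- the Wronskian-like quantity -/
noncomputable def W (u v ζ : ℂ) (x : ℝ) : ℂ := A1 u v (ζ + x) * conj (A u v (ζ + x))

theorem comp_line {f : ℂ → ℂ} {f' : ℂ} {ζ : ℂ} {x : ℝ} (h : HasDerivAt f f' (ζ + x)) :
    HasDerivAt (fun x : ℝ => f (ζ + x)) f' x := by
  have hs : HasDerivAt (fun s : ℝ => ζ + (s : ℂ)) 1 x := by
    simpa using ((hasDerivAt_id x).ofReal_comp).const_add ζ
  have := h.scomp x hs
  simpa [Function.comp_def] using this

theorem W_hasDerivAt (hu : (u ^ 3).re < 0) (hv : (v ^ 3).re < 0) (ζ : ℂ) (x : ℝ) :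
    HasDerivAt (W u v ζ)
      ((ζ + x) * (Complex.normSq (A u v (ζ + x)) : ℂ) + (Complex.normSq (A1 u v (ζ + x)) : ℂ)) x := by
  have h1 := comp_line (A1_hasDerivAt hu hv (ζ + x))
  have h2 := comp_line (A_hasDerivAt hu hv (ζ + x))
  have h3 : HasDerivAt (fun x : ℝ => conj (A u v (ζ + x))) (conj (A1 u v (ζ + x))) x := by
    have := (Complex.conjCLE.toContinuousLinearMap.hasFDerivAt).comp_hasDerivAt x h2
    simpa [Function.comp_def] using this
  have h4 := h1.mul h3
  refine h4.congr_deriv ?_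
  rw [← Complex.mul_conj, ← Complex.mul_conj]
  ring

theorem W_tendsto (hu : (u ^ 3).re < 0) (hv : (v ^ 3).re < 0) (hu1 : 0 < u.re) (hv1 : 0 < v.re)
    (ζ : ℂ) : Tendsto (W u v ζ) atTop (𝓝 0) := by
  have h1 := A1_tendsto hu hv hu1 hv1 ζ
  have h2 := (Complex.continuous_conj.tendsto 0).comp (A_tendsto hu hv hu1 hv1 ζ)
  have h3 := h1.mul h2
  simp only [Function.comp_def, map_zero, mul_zero] at h3
  exact h3

/-- a monotone function on `[0,∞)` that starts at `0` and tends to `0` has zero derivative -/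
theorem deriv_zero_of_mono {f f' : ℝ → ℝ} (hd : ∀ x, HasDerivAt f (f' x) x)
    (hpos : ∀ x, 0 ≤ x → 0 ≤ f' x) (h0 : f 0 = 0) (hlim : Tendsto f atTop (𝓝 0)) :
    ∀ x, 0 < x → f' x = 0 := by
  have hmono : MonotoneOn f (Ici 0) := by
    apply monotoneOn_of_deriv_nonneg (convex_Ici 0)
    · exact fun x _ => (hd x).continuousAt.continuousWithinAt
    · exact fun x _ => (hd x).differentiableAt.differentiableWithinAt
    · intro x hx
      rw [(hd x).deriv]
      rw [interior_Ici] at hx
      exact hpos x (le_of_lt hx)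
  have hzero : ∀ x, 0 ≤ x → f x = 0 := by
    intro x hx
    apply le_antisymm
    · apply ge_of_tendsto hlim
      filter_upwards [eventually_ge_atTop x] with y hy
      exact hmono hx (mem_Ici.mpr (hx.trans hy)) hy
    · rw [← h0]
      exact hmono (mem_Ici.mpr le_rfl) hx hx
  intro x hx
  have h1 : f =ᶠ[𝓝 x] fun _ => 0 := by
    filter_upwards [lt_mem_nhds hx] with y hy
    exact hzero y (le_of_lt hy)
  exact (hd x).unique ((hasDerivAt_const x (0:ℝ)).congr_of_eventuallyEq h1)

/-- zeros force the function to vanish on a ray -/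
theorem A_zero_ray (hu : (u ^ 3).re < 0) (hv : (v ^ 3).re < 0) (hu1 : 0 < u.re) (hv1 : 0 < v.re)
    {ζ : ℂ} (hζ : ζ.im ≠ 0 ∨ 0 ≤ ζ.re) (hA : A u v ζ = 0) :
    ∀ x : ℝ, 0 < x → A u v (ζ + x) = 0 := by
  have hW0 : W u v ζ 0 = 0 := by simp [W, hA]
  have hd := W_hasDerivAt hu hv ζ
  have hlim := W_tendsto hu hv hu1 hv1 ζ
  rcases hζ with him | hre
  · -- imaginary part
    have h1 : ∀ x : ℝ, HasDerivAt (fun x => (W u v ζ x).im / ζ.im)
        (Complex.normSq (A u v (ζ + x))) x := by
      intro x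
      have h2 := (Complex.imCLM.hasFDerivAt).comp_hasDerivAt x (hd x)
      have h3 := h2.div_const ζ.im
      refine h3.congr_deriv ?_
      simp only [Complex.imCLM_apply, Complex.add_im, Complex.mul_im, Complex.ofReal_im,
        Complex.ofReal_re, mul_zero, add_zero, zero_add]
      field_simp
    have h4 : Tendsto (fun x => (W u v ζ x).im / ζ.im) atTop (𝓝 0) := by
      have := ((Complex.continuous_im.tendsto 0).comp hlim).div_const ζ.im
      simpa [Function.comp_def] using this
    have h5 := deriv_zero_of_mono h1 (fun x _ => Complex.normSq_nonneg _) (by simp [hW0]) h4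
    intro x hx
    exact Complex.normSq_eq_zero.mp (h5 x hx)
  · by_cases him : ζ.im = 0
    · have h1 : ∀ x : ℝ, HasDerivAt (fun x => (W u v ζ x).re)
          ((ζ.re + x) * Complex.normSq (A u v (ζ + x)) + Complex.normSq (A1 u v (ζ + x))) x := by
        intro x
        have h2 := (Complex.reCLM.hasFDerivAt).comp_hasDerivAt x (hd x)
        refine h2.congr_deriv ?_
        simp [him]
      have h4 : Tendsto (fun x => (W u v ζ x).re) atTop (𝓝 0) := by
        have := ((Complex.continuous_re.tendsto 0).comp hlim)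
        simpa [Function.comp_def] using this
      have h5 := deriv_zero_of_mono h1 (fun x hx => by
        have := Complex.normSq_nonneg (A u v (ζ + x))
        have := Complex.normSq_nonneg (A1 u v (ζ + x))
        positivity) (by simp [hW0]) h4
      intro x hx
      have h6 := h5 x hx
      have h7 := Complex.normSq_nonneg (A u v (ζ + x))
      have h8 := Complex.normSq_nonneg (A1 u v (ζ + x))
      have h9 : 0 < ζ.re + x := by linarith
      have h10 : 0 ≤ (ζ.re + x) * Complex.normSq (A u v (ζ + x)) := by positivity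
      have h11 : (ζ.re + x) * Complex.normSq (A u v (ζ + x)) = 0 := by linarith
      rcases mul_eq_zero.mp h11 with h12 | h12
      · exact absurd h12 h9.ne'
      · exact Complex.normSq_eq_zero.mp h12
    · -- covered by the first case
      have h1 : ∀ x : ℝ, HasDerivAt (fun x => (W u v ζ x).im / ζ.im)
          (Complex.normSq (A u v (ζ + x))) x := by
        intro x
        have h2 := (Complex.imCLM.hasFDerivAt).comp_hasDerivAt x (hd x)
        have h3 := h2.div_const ζ.im
        refine h3.congr_deriv ?_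
        simp only [Complex.imCLM_apply, Complex.add_im, Complex.mul_im, Complex.ofReal_im,
          Complex.ofReal_re, mul_zero, add_zero, zero_add]
        field_simp
      have h4 : Tendsto (fun x => (W u v ζ x).im / ζ.im) atTop (𝓝 0) := by
        have := ((Complex.continuous_im.tendsto 0).comp hlim).div_const ζ.im
        simpa [Function.comp_def] using this
      have h5 := deriv_zero_of_mono h1 (fun x _ => Complex.normSq_nonneg _) (by simp [hW0]) h4
      intro x hx
      exact Complex.normSq_eq_zero.mp (h5 x hx)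

theorem A_differentiable (hu : (u ^ 3).re < 0) (hv : (v ^ 3).re < 0) :
    Differentiable ℂ (A u v) := fun ζ => (A_hasDerivAt hu hv ζ).differentiableAt

/-- nonvanishing, given that the function is not identically zero -/
theorem A_ne_zero (hu : (u ^ 3).re < 0) (hv : (v ^ 3).re < 0) (hu1 : 0 < u.re) (hv1 : 0 < v.re)
    (hne : ∃ ζ, A u v ζ ≠ 0) {ζ : ℂ} (hζ : ζ.im ≠ 0 ∨ 0 ≤ ζ.re) : A u v ζ ≠ 0 := by
  intro hA
  have hray := A_zero_ray hu hv hu1 hv1 hζ hA
  have han : AnalyticOnNhd ℂ (A u v) univ :=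
    (A_differentiable hu hv).differentiableOn.analyticOnNhd isOpen_univ
  have hfreq : ∃ᶠ w in 𝓝[≠] (ζ + (1:ℝ)), A u v w = 0 := by
    have h1 : Tendsto (fun n : ℕ => ζ + ((1 + 1 / ((n:ℝ) + 1) : ℝ) : ℂ)) atTop
        (𝓝[≠] (ζ + (1:ℝ))) := by
      rw [tendsto_nhdsWithin_iff]
      constructor
      · have h2 : Tendsto (fun n : ℕ => (1 + 1 / ((n:ℝ) + 1) : ℝ)) atTop (𝓝 (1 + 0)) :=
          tendsto_const_nhds.add tendsto_one_div_add_atTop_nhds_zero_nat
        rw [add_zero] at h2
        exact (Complex.continuous_ofReal.tendsto 1).comp h2 |>.const_add ζ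
      · refine Eventually.of_forall fun n => ?_
        simp only [mem_compl_iff, mem_singleton_iff]
        intro h
        have h3 := add_left_cancel h
        have h4 : (1 + 1 / ((n:ℝ) + 1) : ℝ) = 1 := by exact_mod_cast h3
        have h5 : 0 < 1 / ((n:ℝ) + 1) := by positivity
        linarith
    apply h1.frequently
    apply Eventually.frequently
    refine Eventually.of_forall fun n => ?_
    exact hray _ (by positivity)
  have hz := han.eqOn_zero_of_preconnected_of_frequently_eq_zero isPreconnected_univ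
    (mem_univ _) hfreq
  obtain ⟨w, hw⟩ := hne
  exact hw (hz (mem_univ w))

end Pool.Agent.Shadow75
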