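import Pool.Agent.Shadow75.Airy

/-!
# The value at `0` and the final nonvanishing theorem for two conjugate rays
-/

set_option autoImplicit false

open Complex MeasureTheory Set Filter Topology
open scoped ComplexConjugate

namespace Pool.Agent.Shadow75

/-- `K u = ∫_0^∞ u exp (u^3 s^3/3) ds` -/
noncomputable def kk (u : ℂ) (s : ℝ) : ℂ := u * Complex.exp (u ^ 3 * (s:ℂ) ^ 3 / 3)

noncomputable def kk' (u : ℂ) (s : ℝ) : ℂ :=
  (1 + u ^ 3 * (s:ℂ) ^ 3) * Complex.exp (u ^ 3 * (s:ℂ) ^ 3 / 3)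

theorem G_zero_eq (u : ℂ) : G u 0 0 = ∫ s in Ioi (0:ℝ), kk u s := by
  unfold G gk kk
  congr 1
  ext s
  simp

theorem re_cubic (u : ℂ) (s : ℝ) : (u ^ 3 * (s:ℂ) ^ 3 / 3).re = (u ^ 3).re * s ^ 3 / 3 := by
  have h1 : u ^ 3 * (s:ℂ) ^ 3 / 3 = ((s ^ 3 / 3 : ℝ) : ℂ) * u ^ 3 := by
    push_cast
    ring
  rw [h1, Complex.re_ofReal_mul]
  ring

theorem kk_hasDerivAt (s : ℝ) (u : ℂ) : HasDerivAt (fun u => kk u s) (kk' u s) u := by
  unfold kk kk'
  have h1 : HasDerivAt (fun u : ℂ => u ^ 3 * (s:ℂ) ^ 3 / 3) (u ^ 2 * (s:ℂ) ^ 3) u := by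
    have h := (((hasDerivAt_id u).pow 3).mul_const ((s:ℂ) ^ 3)).div_const 3
    refine h.congr_deriv ?_
    simp only [id, Nat.cast_ofNat, Nat.add_one_sub_one, mul_one]
    ring
  have h2 := (hasDerivAt_id u).mul h1.cexp
  refine h2.congr_deriv ?_
  simp only [id]
  ring

theorem kk_cont (u : ℂ) : Continuous (kk u) := by
  unfold kk
  fun_prop

theorem kk'_cont (u : ℂ) : Continuous (kk' u) := by
  unfold kk'
  fun_prop

theorem kk_bound {a U : ℝ} (ha : 0 < a) :
    ∃ g : ℝ → ℝ, IntegrableOn g (Ioi 0) ∧ ∀ u : ℂ, (u ^ 3).re ≤ -a → ‖u‖ ≤ U →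
      ∀ s ∈ Ioi (0:ℝ), ‖kk u s‖ ≤ g s ∧ ‖kk' u s‖ ≤ g s := by
  obtain ⟨C, hC⟩ := cubic_bound (a := a / 3) (by linarith) 0
  refine ⟨fun s => (U + 1) * Real.exp C * (s ^ 0 * Real.exp (-s))
      + U ^ 3 * Real.exp C * (s ^ 3 * Real.exp (-s)), ?_, ?_⟩
  · apply Integrable.add
    · apply Integrable.const_mul
      have h := Real.GammaIntegral_convergent (s := ((0:ℕ) : ℝ) + 1) (by positivity)
      refine (h.congr_fun ?_ measurableSet_Ioi)
      intro s hs
      simp only [add_sub_cancel_right, Real.rpow_natCast]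
      ring
    · apply Integrable.const_mul
      have h := Real.GammaIntegral_convergent (s := ((3:ℕ) : ℝ) + 1) (by positivity)
      refine (h.congr_fun ?_ measurableSet_Ioi)
      intro s hs
      simp only [add_sub_cancel_right, Real.rpow_natCast]
      ring
  · intro u hu hU s hs
    have hs0 : (0:ℝ) < s := hs
    have hU0 : 0 ≤ U := (norm_nonneg u).trans hU
    have hexp : ‖Complex.exp (u ^ 3 * (s:ℂ) ^ 3 / 3)‖ ≤ Real.exp C * Real.exp (-s) := by
      rw [Complex.norm_exp, re_cubic, ← Real.exp_add]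
      apply Real.exp_le_exp.mpr
      have h2 := hC s hs0.le
      have h3 : (u ^ 3).re * s ^ 3 ≤ -a * s ^ 3 :=
        mul_le_mul_of_nonneg_right hu (by positivity)
      linarith
    have hE : 0 ≤ Real.exp C * Real.exp (-s) := by positivity
    have hn3 : ‖u‖ ^ 3 ≤ U ^ 3 := pow_le_pow_left₀ (norm_nonneg _) hU 3
    constructor
    · unfold kk
      rw [norm_mul]
      calc ‖u‖ * ‖Complex.exp (u ^ 3 * (s:ℂ) ^ 3 / 3)‖ ≤ U * (Real.exp C * Real.exp (-s)) :=
            mul_le_mul hU hexp (norm_nonneg _) hU0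
        _ ≤ (U + 1) * Real.exp C * (s ^ 0 * Real.exp (-s))
            + U ^ 3 * Real.exp C * (s ^ 3 * Real.exp (-s)) := by
          have h5 : 0 ≤ U ^ 3 * Real.exp C * (s ^ 3 * Real.exp (-s)) := by positivity
          rw [pow_zero, one_mul]
          nlinarith
    · unfold kk'
      rw [norm_mul]
      have h6 : ‖1 + u ^ 3 * (s:ℂ) ^ 3‖ ≤ 1 + U ^ 3 * s ^ 3 := by
        refine (norm_add_le _ _).trans ?_
        rw [norm_one, norm_mul, norm_pow, norm_pow, Complex.norm_real, Real.norm_of_nonneg hs0.le]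
        have := mul_le_mul_of_nonneg_right hn3 (by positivity : 0 ≤ s ^ 3)
        linarith
      calc ‖1 + u ^ 3 * (s:ℂ) ^ 3‖ * ‖Complex.exp (u ^ 3 * (s:ℂ) ^ 3 / 3)‖
          ≤ (1 + U ^ 3 * s ^ 3) * (Real.exp C * Real.exp (-s)) :=
            mul_le_mul h6 hexp (norm_nonneg _) (by positivity)
        _ ≤ (U + 1) * Real.exp C * (s ^ 0 * Real.exp (-s))
            + U ^ 3 * Real.exp C * (s ^ 3 * Real.exp (-s)) := by
          rw [pow_zero, one_mul]
          nlinarith

theorem kk'_integral {u : ℂ} (hu : (u ^ 3).re < 0) : ∫ s in Ioi (0:ℝ), kk' u s = 0 := by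
  obtain ⟨g, hg, hb⟩ := kk_bound (a := -(u ^ 3).re) (U := ‖u‖) (by linarith)
  have hint : IntegrableOn (kk' u) (Ioi 0) := by
    refine Integrable.mono' hg (kk'_cont u).aestronglyMeasurable ?_
    rw [ae_restrict_iff' measurableSet_Ioi]
    exact Eventually.of_forall fun s hs => (hb u (by linarith) le_rfl s hs).2
  have h := integral_Ioi_of_hasDerivAt_of_tendsto' (a := (0:ℝ))
    (f := fun s : ℝ => (s:ℂ) * Complex.exp (u ^ 3 * (s:ℂ) ^ 3 / 3)) (f' := kk' u) (m := 0)
    (fun s _ => by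
      have hs : HasDerivAt (fun s : ℝ => (s : ℂ)) 1 s := by
        simpa using (hasDerivAt_id s).ofReal_comp
      have h1 : HasDerivAt (fun s : ℝ => u ^ 3 * (s:ℂ) ^ 3 / 3) (u ^ 3 * (s:ℂ) ^ 2) s := by
        have h := ((hs.pow 3).const_mul (u ^ 3)).div_const 3
        refine h.congr_deriv ?_
        norm_num
        ring
      have h2 := hs.mul h1.cexp
      refine h2.congr_deriv ?_
      unfold kk'
      ring)
    hint
    (by
      rw [tendsto_zero_iff_norm_tendsto_zero]
      obtain ⟨C, hC⟩ := cubic_bound (a := -(u ^ 3).re / 3) (by linarith) 0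
      have h0 : Tendsto (fun s : ℝ => Real.exp C * (s ^ 1 * Real.exp (-s))) atTop (𝓝 0) := by
        have := (Real.tendsto_pow_mul_exp_neg_atTop_nhds_zero 1).const_mul (Real.exp C)
        simpa using this
      refine squeeze_zero' (Eventually.of_forall fun s => norm_nonneg _) ?_ h0
      filter_upwards [eventually_ge_atTop (0:ℝ)] with s hs
      rw [norm_mul, Complex.norm_exp, re_cubic, Complex.norm_real, Real.norm_of_nonneg hs]
      have h3 : Real.exp ((u ^ 3).re * s ^ 3 / 3) ≤ Real.exp C * Real.exp (-s) := by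
        rw [← Real.exp_add]
        apply Real.exp_le_exp.mpr
        have := hC s hs
        linarith
      calc s * Real.exp ((u ^ 3).re * s ^ 3 / 3) ≤ s * (Real.exp C * Real.exp (-s)) :=
            mul_le_mul_of_nonneg_left h3 hs
        _ = Real.exp C * (s ^ 1 * Real.exp (-s)) := by ring)
  rw [h]
  simp

theorem K_hasDerivAt {u : ℂ} (hu : (u ^ 3).re < 0) :
    HasDerivAt (fun u => ∫ s in Ioi (0:ℝ), kk u s) 0 u := by
  set a := -(u ^ 3).re / 2 with ha
  have ha0 : 0 < a := by rw [ha]; linarith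
  obtain ⟨g, hg, hb⟩ := kk_bound (a := a) (U := ‖u‖ + 1) ha0
  have hopen : {w : ℂ | (w ^ 3).re < -a} ∩ Metric.ball u 1 ∈ 𝓝 u := by
    apply inter_mem _ (Metric.ball_mem_nhds u one_pos)
    have hc : Continuous fun w : ℂ => (w ^ 3).re := by fun_prop
    exact hc.continuousAt.preimage_mem_nhds (Iio_mem_nhds (by rw [ha]; linarith))
  have hbd : ∀ w ∈ {w : ℂ | (w ^ 3).re < -a} ∩ Metric.ball u 1, ‖w‖ ≤ ‖u‖ + 1 := by
    intro w hw
    have h1 : ‖w - u‖ < 1 := by
      have := hw.2
      rwa [Metric.mem_ball, dist_eq_norm] at this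
    calc ‖w‖ = ‖u + (w - u)‖ := by ring_nf
      _ ≤ ‖u‖ + ‖w - u‖ := norm_add_le _ _
      _ ≤ ‖u‖ + 1 := by linarith
  have h := hasDerivAt_integral_of_dominated_loc_of_deriv_le
    (μ := volume.restrict (Ioi (0:ℝ)))
    (F := fun u s => kk u s) (F' := fun u s => kk' u s) (x₀ := u)
    (s := {w : ℂ | (w ^ 3).re < -a} ∩ Metric.ball u 1) (bound := g)
    hopen
    (Eventually.of_forall fun w => (kk_cont w).aestronglyMeasurable)
    (by
      refine Integrable.mono' hg (kk_cont u).aestronglyMeasurable ?_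
      rw [ae_restrict_iff' measurableSet_Ioi]
      exact Eventually.of_forall fun s hs => (hb u (by rw [ha]; linarith) (by linarith) s hs).1)
    (kk'_cont u).aestronglyMeasurable
    (by
      rw [ae_restrict_iff' measurableSet_Ioi]
      exact Eventually.of_forall fun s hs w hw =>
        (hb w (le_of_lt hw.1) (hbd w hw) s hs).2)
    hg
    (Eventually.of_forall fun s w _ => kk_hasDerivAt s w)
  have h2 := h.2
  rw [kk'_integral hu] at h2
  exact h2

/-- the open convex sector -/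
def sector : Set ℂ := {u : ℂ | 0 < u.re ∧ u.re < Real.sqrt 3 * u.im}

theorem sector_re {u : ℂ} (hu : u ∈ sector) : (u ^ 3).re < 0 := by
  obtain ⟨h1, h2⟩ := hu
  have h3 : (u ^ 3).re = u.re * (u.re ^ 2 - 3 * u.im ^ 2) := by
    rw [pow_succ, pow_succ, pow_one]
    simp only [Complex.mul_re, Complex.mul_im]
    ring
  rw [h3]
  have h4 : u.re ^ 2 < (Real.sqrt 3 * u.im) ^ 2 := by
    apply pow_lt_pow_left₀ h2 h1.le two_ne_zero
  rw [mul_pow, Real.sq_sqrt (by norm_num)] at h4
  nlinarith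

theorem mem_sector {u : ℂ} (hu : (u ^ 3).re < 0) (hu1 : 0 < u.re) (hu2 : 0 < u.im) :
    u ∈ sector := by
  refine ⟨hu1, ?_⟩
  have h3 : (u ^ 3).re = u.re * (u.re ^ 2 - 3 * u.im ^ 2) := by
    rw [pow_succ, pow_succ, pow_one]
    simp only [Complex.mul_re, Complex.mul_im]
    ring
  rw [h3] at hu
  have h4 : u.re ^ 2 < 3 * u.im ^ 2 := by
    by_contra h
    push Not at h
    have : 0 ≤ u.re * (u.re ^ 2 - 3 * u.im ^ 2) := mul_nonneg hu1.le (by linarith)
    linarith
  have h5 : u.re ^ 2 < (Real.sqrt 3 * u.im) ^ 2 := by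
    rw [mul_pow, Real.sq_sqrt (by norm_num)]
    exact h4
  exact lt_of_pow_lt_pow_left₀ 2 (by positivity) h5

theorem sector_open : IsOpen sector := by
  apply IsOpen.inter
  · exact isOpen_lt continuous_const Complex.continuous_re
  · exact isOpen_lt Complex.continuous_re (continuous_const.mul Complex.continuous_im)

theorem sector_convex : Convex ℝ sector := by
  intro x hx y hy a b ha hb hab
  obtain ⟨h1, h2⟩ := hx
  obtain ⟨h3, h4⟩ := hy
  refine ⟨?_, ?_⟩
  · simp only [Complex.add_re, Complex.real_smul, Complex.re_ofReal_mul]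
    rcases ha.lt_or_eq with h | h
    · have := mul_pos h h1
      have := mul_nonneg hb h3.le
      linarith
    · have hb1 : b = 1 := by linarith
      rw [← h, hb1]
      linarith
  · simp only [Complex.add_re, Complex.add_im, Complex.real_smul, Complex.re_ofReal_mul,
      Complex.im_ofReal_mul]
    rcases ha.lt_or_eq with h | h
    · have := mul_lt_mul_of_pos_left h2 h
      have := mul_le_mul_of_nonneg_left h4.le hb
      nlinarith
    · have hb1 : b = 1 := by linarith
      rw [← h, hb1]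
      linarith

/-- base point `1/2 + (√3/2) i` -/
noncomputable def u0 : ℂ := ⟨1 / 2, Real.sqrt 3 / 2⟩

theorem u0_mem : u0 ∈ sector := by
  refine ⟨by norm_num [u0], ?_⟩
  have : Real.sqrt 3 * Real.sqrt 3 = 3 := Real.mul_self_sqrt (by norm_num)
  simp only [u0]
  nlinarith

theorem u0_cube : u0 ^ 3 = -1 := by
  have h : Real.sqrt 3 ^ 2 = 3 := Real.sq_sqrt (by norm_num)
  apply Complex.ext
  · rw [pow_succ, pow_succ, pow_one]
    simp only [Complex.mul_re, Complex.mul_im, u0, Complex.neg_re, Complex.one_re]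
    nlinarith
  · rw [pow_succ, pow_succ, pow_one]
    simp only [Complex.mul_re, Complex.mul_im, u0, Complex.neg_im, Complex.one_im]
    have h3 : Real.sqrt 3 ^ 3 = 3 * Real.sqrt 3 := by rw [pow_succ, h]
    ring_nf
    rw [h3]
    ring

theorem K_u0_im : 0 < (∫ s in Ioi (0:ℝ), kk u0 s).im := by
  have h1 : ∀ s : ℝ, kk u0 s = ((Real.exp (-(s ^ 3 / 3)) : ℝ) : ℂ) * u0 := by
    intro s
    unfold kk
    rw [u0_cube]
    push_cast
    rw [mul_comm]
    congr 2
    ring
  simp only [h1]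
  rw [integral_mul_const, integral_complex_ofReal]
  have h2 : 0 < ∫ s in Ioi (0:ℝ), Real.exp (-(s ^ 3 / 3)) := by
    have hint : IntegrableOn (fun s : ℝ => Real.exp (-(s ^ 3 / 3))) (Ioi 0) := by
      obtain ⟨C, hC⟩ := cubic_bound (a := 1 / 3) (by norm_num) 0
      have hg : IntegrableOn (fun s : ℝ => Real.exp C * Real.exp (-s)) (Ioi 0) :=
        (integrableOn_exp_neg_Ioi 0).const_mul _
      refine Integrable.mono' hg (by fun_prop) ?_
      rw [ae_restrict_iff' measurableSet_Ioi]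
      refine Eventually.of_forall fun s hs => ?_
      have hs0 : (0:ℝ) < s := hs
      rw [Real.norm_of_nonneg (Real.exp_nonneg _), ← Real.exp_add]
      apply Real.exp_le_exp.mpr
      have := hC s hs0.le
      linarith
    rw [setIntegral_pos_iff_support_of_nonneg_ae]
    · have : Function.support (fun s : ℝ => Real.exp (-(s ^ 3 / 3))) = univ := by
        ext s
        simp [(Real.exp_pos _).ne']
      rw [this, univ_inter]
      simp
    · exact Eventually.of_forall fun s => Real.exp_nonneg _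
    · exact hint
  rw [Complex.im_ofReal_mul]
  apply mul_pos h2
  simp only [u0]
  positivity

theorem G_zero_im_pos {u : ℂ} (hu : (u ^ 3).re < 0) (hu1 : 0 < u.re) (hu2 : 0 < u.im) :
    0 < (G u 0 0).im := by
  rw [G_zero_eq]
  have hmem := mem_sector hu hu1 hu2
  have h := sector_open.is_const_of_deriv_eq_zero (f := fun u => ∫ s in Ioi (0:ℝ), kk u s)
    sector_convex.isPreconnected
    (fun w hw => (K_hasDerivAt (sector_re hw)).differentiableAt.differentiableWithinAt)
    (fun w hw => (K_hasDerivAt (sector_re hw)).deriv) hmem u0_mem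
  rw [h]
  exact K_u0_im

theorem gk_conj (u ζ : ℂ) (k : ℕ) (s : ℝ) : gk (conj u) k (conj ζ) s = conj (gk u k ζ s) := by
  unfold gk
  simp only [map_mul, map_pow, map_sub, map_div₀, Complex.conj_ofReal, ← Complex.exp_conj,
    Complex.conj_ofNat]

theorem G_conj (u ζ : ℂ) (k : ℕ) : G (conj u) k (conj ζ) = conj (G u k ζ) := by
  unfold G
  rw [← integral_conj]
  simp only [gk_conj]

/-- **Airy nonvanishing** for two conjugate rays. -/
theorem A_conj_ne_zero {u : ℂ} (hu : (u ^ 3).re < 0) (hu1 : 0 < u.re) (hu2 : 0 < u.im) {ζ : ℂ}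
    (hζ : ζ.im ≠ 0 ∨ 0 ≤ ζ.re) : A u (conj u) ζ ≠ 0 := by
  have hv : ((conj u) ^ 3).re < 0 := by
    rw [← map_pow, Complex.conj_re]
    exact hu
  have hv1 : 0 < (conj u).re := by rwa [Complex.conj_re]
  apply A_ne_zero hu hv hu1 hv1 _ hζ
  refine ⟨0, ?_⟩
  have h := G_conj u 0 0
  rw [map_zero] at h
  unfold A
  rw [h]
  intro h2
  have h3 := congrArg Complex.im h2
  simp only [Complex.sub_im, Complex.conj_im, Complex.zero_im] at h3
  have := G_zero_im_pos hu hu1 hu2
  linarith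

end Pool.Agent.Shadow75
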