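import Pool.Agent.Shadow75.MergeNZ2
import Pool.Agent.Shadow69.Gauss

/-!
# Uniform third order expansion of the phase at a moving saddle, local data of the integrand
-/

set_option autoImplicit false

open Complex MeasureTheory Set Filter Topology Metric Polynomial
open Pool.Agent.Shadow69

namespace Pool.Agent.Shadow75

/-- second order Taylor bound -/
theorem taylor2 {f : ℂ → ℂ} {c : ℂ} {R B : ℝ} (hR : 0 < R) (hf : DifferentiableOn ℂ f (ball c R))
    (hB : ∀ w ∈ ball c R, ‖f w‖ ≤ B) :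
    ∀ w ∈ ball c R, ‖f w - f c - deriv f c * (w - c)‖ ≤ 4 * B / R ^ 2 * ‖w - c‖ ^ 2 := by
  intro w hw
  have hc : c ∈ ball c R := mem_ball_self hR
  have h1 : MapsTo f (ball c R) (closedBall (f c) (2 * B)) := by
    intro x hx
    rw [mem_closedBall, dist_eq_norm]
    have := norm_sub_le (f x) (f c)
    linarith [hB x hx, hB c hc]
  set h := dslope f c with hh
  have hhd : DifferentiableOn ℂ h (ball c R) :=
    (Complex.differentiableOn_dslope (ball_mem_nhds c hR)).mpr hf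
  have h2 : ∀ x ∈ ball c R, ‖h x‖ ≤ 2 * B / R := fun x hx =>
    norm_dslope_le_div_of_mapsTo_ball hf h1 hx
  have h3 : MapsTo h (ball c R) (closedBall (h c) (2 * (2 * B / R))) := by
    intro x hx
    rw [mem_closedBall, dist_eq_norm]
    have := norm_sub_le (h x) (h c)
    linarith [h2 x hx, h2 c hc]
  have h4 : ‖dslope h c w‖ ≤ 2 * (2 * B / R) / R := norm_dslope_le_div_of_mapsTo_ball hhd h3 hw
  have e1 : f w - f c = (w - c) * h w := by
    rw [← smul_eq_mul, hh, sub_smul_dslope]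
  have e2 : h w - h c = (w - c) * dslope h c w := by
    rw [← smul_eq_mul, sub_smul_dslope]
  have e3 : h c = deriv f c := dslope_same f c
  have e4 : f w - f c - deriv f c * (w - c) = (w - c) ^ 2 * dslope h c w := by
    rw [e1, ← e3]
    linear_combination (w - c) * e2
  rw [e4, norm_mul, norm_pow]
  calc ‖w - c‖ ^ 2 * ‖dslope h c w‖ ≤ ‖w - c‖ ^ 2 * (2 * (2 * B / R) / R) :=
        mul_le_mul_of_nonneg_left h4 (by positivity)
    _ = 4 * B / R ^ 2 * ‖w - c‖ ^ 2 := by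
        field_simp
        ring

/-- third derivative in `w` of `log P(w) - α log (w - z)` -/
noncomputable def Fppp (P : ℂ[X]) (α : ℝ) (z w : ℂ) : ℂ :=
  ((derivative (derivative (derivative P))).eval w * P.eval w ^ 2
    - 3 * P.eval w * (derivative P).eval w * (derivative (derivative P)).eval w
    + 2 * (derivative P).eval w ^ 3) / P.eval w ^ 3 - 2 * α / (w - z) ^ 3

theorem hasDerivAt_Fpp {P : ℂ[X]} {α : ℝ} {z w : ℂ} (hP : P.eval w ≠ 0) (hw : w ≠ z) :
    HasDerivAt (Fpp P α z) (Fppp P α z w) w := by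
  have hw' : w - z ≠ 0 := sub_ne_zero.mpr hw
  have d0 := P.hasDerivAt w
  have d1 := (derivative P).hasDerivAt w
  have d2 := (derivative (derivative P)).hasDerivAt w
  have h1 := ((d2.mul d0).sub (d1.pow 2)).div (d0.pow 2) (pow_ne_zero 2 hP)
  have hid : HasDerivAt (fun w : ℂ => w - z) 1 w := (hasDerivAt_id w).sub_const z
  have h2 := (hid.pow 2).inv (pow_ne_zero 2 hw')
  have h3 := h1.add (h2.const_mul (α : ℂ))
  refine (h3.congr_deriv ?_).congr_of_eventuallyEq ?_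
  · unfold Fppp
    simp only [Pi.pow_apply, Pi.mul_apply, Pi.sub_apply]
    field_simp
    ring
  · exact Eventually.of_forall fun w => by
      simp only [Fpp, Pi.pow_apply, Pi.mul_apply, Pi.sub_apply, Pi.add_apply,
        div_eq_mul_inv, Pi.inv_apply]

theorem continuousAt_Fppp {P : ℂ[X]} {α : ℝ} {z w : ℂ} (hP : P.eval w ≠ 0) (hw : w ≠ z) :
    ContinuousAt (fun x : ℝ × ℂ × ℂ => Fppp P x.1 x.2.1 x.2.2) (α, z, w) := by
  have hw' : w - z ≠ 0 := sub_ne_zero.mpr hw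
  unfold Fppp
  have hc : ∀ Q : ℂ[X], ContinuousAt (fun x : ℝ × ℂ × ℂ => Q.eval x.2.2) (α, z, w) := fun Q =>
    (Q.continuous.comp (by fun_prop)).continuousAt
  have hα : ContinuousAt (fun x : ℝ × ℂ × ℂ => 2 * (x.1 : ℂ)) (α, z, w) :=
    (continuous_const.mul (Complex.continuous_ofReal.comp continuous_fst)).continuousAt
  refine ContinuousAt.sub (ContinuousAt.div ?_ ((hc P).pow 3) (pow_ne_zero 3 hP))
    (ContinuousAt.div hα (by fun_prop) (pow_ne_zero 3 hw'))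
  exact (((hc _).mul ((hc P).pow 2)).sub
    (((continuousAt_const.mul (hc P)).mul (hc _)).mul (hc _))).add
      (continuousAt_const.mul ((hc _).pow 3))

/-- uniform expansion of `Fpp` -/
theorem fpp_expand {ι : Type*} {l : Filter ι} {P : ℂ[X]} {α : ℝ} {p w0 : ℂ}
    (hP : P.eval w0 ≠ 0) (hw0 : w0 ≠ p) {a : ι → ℝ} {z w : ι → ℂ}
    (hα : Tendsto a l (𝓝 α)) (hz : Tendsto z l (𝓝 p)) (hw : Tendsto w l (𝓝 w0)) :
    ∃ ρ M : ℝ, 0 < ρ ∧ 0 ≤ M ∧ ∀ᶠ k in l, ∀ y : ℂ, ‖y‖ < ρ →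
      P.eval (w k + y) ≠ 0 ∧ w k + y ≠ z k ∧
      ‖Fpp P (a k) (z k) (w k + y) - Fpp P (a k) (z k) (w k) - Fppp P (a k) (z k) (w k) * y‖
        ≤ M * ‖y‖ ^ 2 := by
  have hcF := continuousAt_Fpp (P := P) (α := α) hP hw0
  set B : ℝ := ‖Fpp P α p w0‖ + 1 with hB
  have hB0 : 0 ≤ B := by positivity
  have ev1 : ∀ᶠ x in 𝓝 ((α, p, w0) : ℝ × ℂ × ℂ),
      P.eval x.2.2 ≠ 0 ∧ x.2.2 - x.2.1 ≠ 0 ∧ ‖Fpp P x.1 x.2.1 x.2.2‖ < B := by
    refine Eventually.and ?_ (Eventually.and ?_ ?_)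
    · have h1 : ContinuousAt (fun x : ℝ × ℂ × ℂ => P.eval x.2.2) ((α, p, w0) : ℝ × ℂ × ℂ) :=
        (P.continuous.comp (by fun_prop)).continuousAt
      exact h1.eventually_ne hP
    · have h1 : ContinuousAt (fun x : ℝ × ℂ × ℂ => x.2.2 - x.2.1) ((α, p, w0) : ℝ × ℂ × ℂ) := by
        fun_prop
      exact h1.eventually_ne (sub_ne_zero.mpr hw0)
    · exact hcF.norm.eventually_lt continuousAt_const (by rw [hB]; simp)
  obtain ⟨δ, hδ, hball⟩ := Metric.eventually_nhds_iff.mp ev1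
  refine ⟨δ / 2, 4 * B / (δ / 2) ^ 2, by positivity, by positivity, ?_⟩
  have e1 : ∀ᶠ k in l, dist (a k) α < δ := (Metric.tendsto_nhds.mp hα) δ hδ
  have e2 : ∀ᶠ k in l, dist (z k) p < δ := (Metric.tendsto_nhds.mp hz) δ hδ
  have e3 : ∀ᶠ k in l, dist (w k) w0 < δ / 2 := (Metric.tendsto_nhds.mp hw) (δ / 2) (by positivity)
  filter_upwards [e1, e2, e3] with k h1 h2 h3 y hy
  have hin : ∀ x ∈ ball (w k) (δ / 2), P.eval x ≠ 0 ∧ x ≠ z k ∧ ‖Fpp P (a k) (z k) x‖ < B := by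
    intro x hx
    have hx' : dist x (w k) < δ / 2 := hx
    have hd : dist ((a k, z k, x) : ℝ × ℂ × ℂ) (α, p, w0) < δ := by
      rw [Prod.dist_eq, Prod.dist_eq]
      refine max_lt h1 (max_lt h2 ?_)
      have := dist_triangle x (w k) w0
      simp only
      linarith
    obtain ⟨g1, g2, g3⟩ := hball hd
    exact ⟨g1, sub_ne_zero.mp g2, g3⟩
  have hyb : w k + y ∈ ball (w k) (δ / 2) := by
    rw [mem_ball, dist_eq_norm, add_sub_cancel_left]
    exact hy
  have hcb : w k ∈ ball (w k) (δ / 2) := mem_ball_self (by positivity)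
  refine ⟨(hin _ hyb).1, (hin _ hyb).2.1, ?_⟩
  have hdiff : DifferentiableOn ℂ (Fpp P (a k) (z k)) (ball (w k) (δ / 2)) := fun x hx =>
    (hasDerivAt_Fpp (hin x hx).1 (hin x hx).2.1).differentiableAt.differentiableWithinAt
  have h5 := taylor2 (by positivity) hdiff (fun x hx => (hin x hx).2.2.le) _ hyb
  rw [(hasDerivAt_Fpp (hin _ hcb).1 (hin _ hcb).2.1).deriv, add_sub_cancel_left] at h5
  exact h5

theorem integral_one_sub_mul : ∫ x in (0 : ℝ)..1, (1 - (x : ℂ)) * x = 1 / 6 := by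
  have h : ∀ x : ℝ, (1 - (x : ℂ)) * x = ((((1 - x) * x : ℝ)) : ℂ) := fun x => by push_cast; ring
  simp only [h]
  rw [intervalIntegral.integral_ofReal]
  have : ∫ x in (0 : ℝ)..1, (1 - x) * x = 1 / 6 := by
    have e : ∀ x : ℝ, (1 - x) * x = x - x ^ 2 := fun x => by ring
    simp only [e]
    rw [intervalIntegral.integral_sub (Continuous.intervalIntegrable (by fun_prop) _ _)
      (Continuous.intervalIntegrable (by fun_prop) _ _)]
    norm_num
  rw [this]
  norm_num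

/-- expansion of the remainder integral -/
theorem remInt_expand {P : ℂ[X]} {a : ℝ} {z w : ℂ} {ρ M : ℝ} (hM : 0 ≤ M)
    (h : ∀ y : ℂ, ‖y‖ < ρ → P.eval (w + y) ≠ 0 ∧ w + y ≠ z ∧
      ‖Fpp P a z (w + y) - Fpp P a z w - Fppp P a z w * y‖ ≤ M * ‖y‖ ^ 2) {τ : ℂ} (hτ : ‖τ‖ < ρ) :
    ‖remInt P a z w τ - (Fpp P a z w / 2 + Fppp P a z w / 6 * τ)‖ ≤ M * ‖τ‖ ^ 2 := by
  have hx : ∀ x ∈ Icc (0:ℝ) 1, ‖(x : ℂ) * τ‖ ≤ ‖τ‖ := by
    intro x hx
    rw [norm_mul, Complex.norm_real, Real.norm_of_nonneg hx.1]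
    exact mul_le_of_le_one_left (norm_nonneg _) hx.2
  have hx' : ∀ x ∈ Icc (0:ℝ) 1, ‖(x : ℂ) * τ‖ < ρ := fun x h1 => (hx x h1).trans_lt hτ
  have hco := remInt_cont (P := P) (α := a) (z := z) (w := w) (τ := τ)
    (fun x h1 => (h _ (hx' x h1)).1) (fun x h1 => (h _ (hx' x h1)).2.1)
  have hii : IntervalIntegrable (fun x : ℝ => (1 - (x : ℂ)) * Fpp P a z (w + x * τ)) volume 0 1 := by
    refine ContinuousOn.intervalIntegrable ?_
    rw [uIcc_of_le zero_le_one]
    exact hco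
  have hii2 : IntervalIntegrable (fun x : ℝ => (1 - (x : ℂ)) * Fpp P a z w
      + (1 - (x:ℂ)) * x * (Fppp P a z w * τ)) volume 0 1 :=
    Continuous.intervalIntegrable (by fun_prop) _ _
  have e1 : remInt P a z w τ - (Fpp P a z w / 2 + Fppp P a z w / 6 * τ) =
      ∫ x in (0 : ℝ)..1, (1 - (x : ℂ)) *
        (Fpp P a z (w + x * τ) - Fpp P a z w - Fppp P a z w * (x * τ)) := by
    unfold remInt
    have e2 : Fpp P a z w / 2 + Fppp P a z w / 6 * τ = ∫ x in (0 : ℝ)..1,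
        ((1 - (x : ℂ)) * Fpp P a z w + (1 - (x:ℂ)) * x * (Fppp P a z w * τ)) := by
      rw [intervalIntegral.integral_add (Continuous.intervalIntegrable (by fun_prop) _ _)
        (Continuous.intervalIntegrable (by fun_prop) _ _),
        intervalIntegral.integral_mul_const, intervalIntegral.integral_mul_const,
        integral_one_sub, integral_one_sub_mul]
      ring
    rw [e2, ← intervalIntegral.integral_sub hii hii2]
    refine intervalIntegral.integral_congr fun x _ => ?_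
    ring
  rw [e1]
  have h3 := intervalIntegral.norm_integral_le_of_norm_le_const (a := (0:ℝ)) (b := 1)
    (C := M * ‖τ‖ ^ 2)
    (f := fun x : ℝ => (1 - (x : ℂ)) *
        (Fpp P a z (w + x * τ) - Fpp P a z w - Fppp P a z w * (x * τ))) (by
      intro x hx1
      rw [uIoc_of_le zero_le_one] at hx1
      have hx2 : x ∈ Icc (0 : ℝ) 1 := ⟨hx1.1.le, hx1.2⟩
      rw [norm_mul]
      have h4 : ‖(1 - (x : ℂ))‖ ≤ 1 := by
        have : (1 - (x : ℂ)) = ((1 - x : ℝ) : ℂ) := by push_cast; ring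
        rw [this, Complex.norm_real, Real.norm_eq_abs, abs_le]
        constructor <;> linarith [hx1.1, hx1.2]
      have h5 := (h _ (hx' x hx2)).2.2
      have h6 : M * ‖(x : ℂ) * τ‖ ^ 2 ≤ M * ‖τ‖ ^ 2 :=
        mul_le_mul_of_nonneg_left (pow_le_pow_left₀ (norm_nonneg _) (hx x hx2) 2) hM
      calc ‖(1 - (x : ℂ))‖ *
            ‖Fpp P a z (w + x * τ) - Fpp P a z w - Fppp P a z w * (x * τ)‖
          ≤ 1 * (M * ‖τ‖ ^ 2) := mul_le_mul h4 (h5.trans h6) (norm_nonneg _) (by norm_num)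
        _ = M * ‖τ‖ ^ 2 := one_mul _)
  simpa using h3

/-- the local data of the normalised integrand along a ray from the moving saddle -/
theorem rayData_ker {P : ℂ[X]} {α : ℝ} {p w0 : ℂ}
    (hP : P.eval w0 ≠ 0) (hw0 : w0 ≠ p) {n m : ℕ → ℕ} {z w : ℕ → ℂ}
    (hn : Tendsto n atTop atTop) (hα : Tendsto (fun k => (m k : ℝ) / n k) atTop (𝓝 α))
    (hz : Tendsto z atTop (𝓝 p)) (hw : Tendsto w atTop (𝓝 w0))
    (hs : ∀ᶠ k in atTop, Fp P ((m k : ℝ) / n k) (z k) (w k) = 0) (u : ℂ) :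
    ∃ r0 M : ℝ, 0 < r0 ∧ 0 ≤ M ∧ ∀ r : ℝ, r ≤ r0 →
      RayData (fun k => (n k : ℝ)) (fun k => Fpp P ((m k : ℝ) / n k) (z k) (w k) / 2)
        (fun k => Fppp P ((m k : ℝ) / n k) (z k) (w k) / 6) u r M
        (fun k t => ker P 0 (n k) (m k) (z k) (w k + t * u) / ker P 0 (n k) (m k) (z k) (w k)) := by
  obtain ⟨ρ, M, hρ, hM, hexp⟩ := fpp_expand hP hw0 hα hz hw
  have hnpos : ∀ᶠ k in atTop, 0 < n k := hn.eventually_gt_atTop 0
  refine ⟨ρ / (2 * (‖u‖ + 1)), M * ‖u‖ ^ 4, by positivity, by positivity, fun r hr => ?_⟩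
  constructor
  · intro k
    exact (measurable_ker_seg P 0 (n k) (m k) (z k) (w k) u).div_const _
  · filter_upwards [hexp, hnpos, hs] with k hk hnk hsk t ht
    have hτ : ‖(t : ℂ) * u‖ < ρ := by
      rw [norm_mul, Complex.norm_real, Real.norm_of_nonneg ht.1.le]
      have h1 : t ≤ ρ / (2 * (‖u‖ + 1)) := ht.2.trans hr
      rw [le_div_iff₀ (by positivity)] at h1
      nlinarith [ht.1, norm_nonneg u]
    have hx : ∀ x ∈ Icc (0:ℝ) 1, ‖(x : ℂ) * ((t:ℂ) * u)‖ < ρ := by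
      intro x hx
      refine lt_of_le_of_lt ?_ hτ
      rw [norm_mul, Complex.norm_real, Real.norm_of_nonneg hx.1]
      exact mul_le_of_le_one_left (norm_nonneg _) hx.2
    have h1 := ker_local 0 (P := P) (m := m k) hnk (z := z k) (w := w k) (τ := t * u)
      (fun x hx' => (hk _ (hx x hx')).1) (fun x hx' => (hk _ (hx x hx')).2.1) hsk
    rw [pow_zero, mul_one] at h1
    have h0 := hk 0 (by rw [norm_zero]; exact hρ)
    rw [add_zero] at h0
    have hne := ker_ne_zero (P := P) 0 (n k) (m k) h0.1 h0.2.1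
    refine ⟨(t * u) ^ 2 * remInt P ((m k : ℝ) / n k) (z k) (w k) (t * u), ?_, ?_⟩
    · rw [h1, mul_div_cancel_left₀ _ hne]
      congr 1
      unfold remInt
      push_cast
      ring
    · have h2 := remInt_expand hM hk hτ
      have e : (t * u) ^ 2 * remInt P ((m k : ℝ) / n k) (z k) (w k) (t * u) -
          (Fpp P ((m k : ℝ) / n k) (z k) (w k) / 2 * u ^ 2 * (t:ℂ) ^ 2 +
            Fppp P ((m k : ℝ) / n k) (z k) (w k) / 6 * u ^ 3 * (t:ℂ) ^ 3) =
          (t * u) ^ 2 * (remInt P ((m k : ℝ) / n k) (z k) (w k) (t * u) -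
            (Fpp P ((m k : ℝ) / n k) (z k) (w k) / 2 +
              Fppp P ((m k : ℝ) / n k) (z k) (w k) / 6 * (t * u))) := by ring
      rw [e, norm_mul, norm_pow]
      calc ‖(t:ℂ) * u‖ ^ 2 * ‖remInt P ((m k : ℝ) / n k) (z k) (w k) (t * u) -
            (Fpp P ((m k : ℝ) / n k) (z k) (w k) / 2 +
              Fppp P ((m k : ℝ) / n k) (z k) (w k) / 6 * (t * u))‖
          ≤ ‖(t:ℂ) * u‖ ^ 2 * (M * ‖(t:ℂ) * u‖ ^ 2) :=
            mul_le_mul_of_nonneg_left h2 (by positivity)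
        _ = M * ‖u‖ ^ 4 * t ^ 4 := by
            rw [norm_mul, Complex.norm_real, Real.norm_of_nonneg ht.1.le]
            ring

end Pool.Agent.Shadow75
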