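import Pool.Agent.Shadow75.AiryVal

/-!
# Moving the vertex of the two rays (moving saddle)
-/

set_option autoImplicit false

open Complex MeasureTheory Set Filter Topology
open scoped ComplexConjugate

namespace Pool.Agent.Shadow75

theorem cubic_bound2 {a : ℝ} (ha : 0 < a) (B2 B1 L : ℝ) :
    ∃ C : ℝ, ∀ s : ℝ, 0 ≤ s → - a * s ^ 3 + B2 * s ^ 2 + B1 * s ≤ C - L * s := by
  set M := |B2| + |B1| + |L| + 1 with hM
  refine ⟨M * (M / a + 1) ^ 2, fun s hs => ?_⟩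
  have hM0 : 0 < M := by positivity
  have hB2 : B2 ≤ |B2| := le_abs_self B2
  have hB1 : B1 ≤ |B1| := le_abs_self B1
  have hL : L ≤ |L| := le_abs_self L
  have hb2 : 0 ≤ |B2| := abs_nonneg _
  have hb1 : 0 ≤ |B1| := abs_nonneg _
  have hl : 0 ≤ |L| := abs_nonneg _
  have h0 : 0 < M / a := by positivity
  have h1 : 1 ≤ M / a + 1 := by linarith
  by_cases h : s ≤ M / a + 1
  · have h2 : s ^ 2 ≤ (M / a + 1) ^ 2 := pow_le_pow_left₀ hs h 2
    have h3 : s ≤ (M / a + 1) ^ 2 := by nlinarith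
    have h4 : 0 ≤ a * s ^ 3 := by positivity
    have h5 : B2 * s ^ 2 ≤ |B2| * (M / a + 1) ^ 2 :=
      (mul_le_mul_of_nonneg_right hB2 (by positivity)).trans (mul_le_mul_of_nonneg_left h2 hb2)
    have h6 : B1 * s ≤ |B1| * (M / a + 1) ^ 2 :=
      (mul_le_mul_of_nonneg_right hB1 hs).trans (mul_le_mul_of_nonneg_left h3 hb1)
    have h7 : L * s ≤ |L| * (M / a + 1) ^ 2 :=
      (mul_le_mul_of_nonneg_right hL hs).trans (mul_le_mul_of_nonneg_left h3 hl)
    have h8 : 0 ≤ (M / a + 1) ^ 2 := by positivity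
    have h9 : M * (M / a + 1) ^ 2 = |B2| * (M / a + 1) ^ 2 + |B1| * (M / a + 1) ^ 2
        + |L| * (M / a + 1) ^ 2 + (M / a + 1) ^ 2 := by rw [hM]; ring
    linarith
  · push Not at h
    have h4 : 1 ≤ s := by linarith
    have h5 : M ≤ a * s := by
      have : M / a < s := by linarith
      rw [div_lt_iff₀ ha] at this
      linarith
    have h6 : M * s ^ 2 ≤ a * s ^ 3 := by
      have h7 : a * s ^ 3 = (a * s) * s ^ 2 := by ring
      rw [h7]
      exact mul_le_mul_of_nonneg_right h5 (by positivity)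
    have h8 : s ≤ s ^ 2 := by nlinarith
    have h9 : B2 * s ^ 2 ≤ |B2| * s ^ 2 := mul_le_mul_of_nonneg_right hB2 (by positivity)
    have h10 : B1 * s ≤ |B1| * s ^ 2 :=
      (mul_le_mul_of_nonneg_right hB1 hs).trans (mul_le_mul_of_nonneg_left h8 hb1)
    have h11 : L * s ≤ |L| * s ^ 2 :=
      (mul_le_mul_of_nonneg_right hL hs).trans (mul_le_mul_of_nonneg_left h8 hl)
    have h12 : M * s ^ 2 = |B2| * s ^ 2 + |B1| * s ^ 2 + |L| * s ^ 2 + s ^ 2 := by rw [hM]; ring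
    have h13 : 0 ≤ M * (M / a + 1) ^ 2 := by positivity
    have h14 : 0 ≤ s ^ 2 := by positivity
    linarith

/-- integrand along the ray `u` from `a` -/
noncomputable def ee (u ζ a : ℂ) (s : ℝ) : ℂ :=
  Complex.exp ((a + u * s) ^ 3 / 3 - ζ * (a + u * s))

noncomputable def ee' (u ζ a : ℂ) (s : ℝ) : ℂ :=
  ((a + u * s) ^ 2 - ζ) * Complex.exp ((a + u * s) ^ 3 / 3 - ζ * (a + u * s))

theorem ee_cont (u ζ a : ℂ) : Continuous (ee u ζ a) := by unfold ee; fun_prop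

theorem ee'_cont (u ζ a : ℂ) : Continuous (ee' u ζ a) := by unfold ee'; fun_prop

theorem ee_hasDerivAt (u ζ : ℂ) (s : ℝ) (a : ℂ) :
    HasDerivAt (fun a => ee u ζ a s) (ee' u ζ a s) a := by
  unfold ee ee'
  have h0 : HasDerivAt (fun a : ℂ => a + u * s) 1 a := (hasDerivAt_id a).add_const _
  have h1 : HasDerivAt (fun a : ℂ => (a + u * s) ^ 3 / 3 - ζ * (a + u * s))
      ((a + u * s) ^ 2 - ζ) a := by
    refine (((h0.pow 3).div_const 3).sub (h0.const_mul ζ)).congr_deriv ?_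
    simp only [Nat.cast_ofNat, Nat.add_one_sub_one, mul_one]
    ring
  refine h1.cexp.congr_deriv ?_
  ring

theorem ee_hasDerivAt_s (u ζ a : ℂ) (s : ℝ) :
    HasDerivAt (fun s : ℝ => ee u ζ a s) (ee' u ζ a s * u) s := by
  unfold ee ee'
  have hs : HasDerivAt (fun s : ℝ => (s : ℂ)) 1 s := by
    simpa using (hasDerivAt_id s).ofReal_comp
  have h0 : HasDerivAt (fun s : ℝ => a + u * s) (u * 1) s := (hs.const_mul u).const_add a
  have h1 : HasDerivAt (fun s : ℝ => (a + u * s) ^ 3 / 3 - ζ * (a + u * s))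
      (((a + u * s) ^ 2 - ζ) * u) s := by
    refine (((h0.pow 3).div_const 3).sub (h0.const_mul ζ)).congr_deriv ?_
    simp only [Nat.cast_ofNat, Nat.add_one_sub_one, mul_one]
    ring
  refine h1.cexp.congr_deriv ?_
  ring

theorem norm_ee_le {u : ℂ} (hu : (u ^ 3).re < 0) (ζ : ℂ) {R : ℝ} (_hR : 0 ≤ R) :
    ∃ C : ℝ, ∀ a : ℂ, ‖a‖ ≤ R → ∀ s : ℝ, 0 ≤ s →
      ‖ee u ζ a s‖ ≤ Real.exp (C - 2 * s) := by
  obtain ⟨C, hC⟩ := cubic_bound2 (a := -(u ^ 3).re / 3) (by linarith)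
    (R * ‖u‖ ^ 2) (R ^ 2 * ‖u‖ + ‖ζ‖ * ‖u‖) 2
  refine ⟨C + R ^ 3 / 3 + ‖ζ‖ * R, fun a ha s hs => ?_⟩
  unfold ee
  rw [Complex.norm_exp]
  apply Real.exp_le_exp.mpr
  have hdec : (a + u * s) ^ 3 / 3 - ζ * (a + u * s)
      = u ^ 3 * (s:ℂ) ^ 3 / 3 + ((s ^ 2 : ℝ) : ℂ) * (a * u ^ 2) + (s : ℂ) * (a ^ 2 * u - ζ * u)
        + (a ^ 3 / 3 - ζ * a) := by
    push_cast
    ring
  rw [hdec, Complex.add_re, Complex.add_re, Complex.add_re, re_cubic, Complex.re_ofReal_mul,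
    Complex.re_ofReal_mul]
  have h1 : (a * u ^ 2).re ≤ R * ‖u‖ ^ 2 := by
    refine (Complex.re_le_norm _).trans ?_
    rw [norm_mul, norm_pow]
    exact mul_le_mul_of_nonneg_right ha (by positivity)
  have h2 : (a ^ 2 * u - ζ * u).re ≤ R ^ 2 * ‖u‖ + ‖ζ‖ * ‖u‖ := by
    refine (Complex.re_le_norm _).trans ((norm_sub_le _ _).trans ?_)
    rw [norm_mul, norm_mul, norm_pow]
    have : ‖a‖ ^ 2 ≤ R ^ 2 := pow_le_pow_left₀ (norm_nonneg _) ha 2
    have := mul_le_mul_of_nonneg_right this (norm_nonneg u)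
    linarith
  have h3 : (a ^ 3 / 3 - ζ * a).re ≤ R ^ 3 / 3 + ‖ζ‖ * R := by
    refine (Complex.re_le_norm _).trans ((norm_sub_le _ _).trans ?_)
    rw [norm_div, norm_mul, norm_pow]
    have h4 : ‖a‖ ^ 3 ≤ R ^ 3 := pow_le_pow_left₀ (norm_nonneg _) ha 3
    have h5 := mul_le_mul_of_nonneg_left ha (norm_nonneg ζ)
    have h6 : ‖(3:ℂ)‖ = 3 := by norm_num
    rw [h6]
    linarith
  have h4 := hC s hs
  have h5 : s ^ 2 * (a * u ^ 2).re ≤ s ^ 2 * (R * ‖u‖ ^ 2) :=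
    mul_le_mul_of_nonneg_left h1 (by positivity)
  have h6 : s * (a ^ 2 * u - ζ * u).re ≤ s * (R ^ 2 * ‖u‖ + ‖ζ‖ * ‖u‖) :=
    mul_le_mul_of_nonneg_left h2 hs
  linarith

theorem norm_ee'_le {u : ℂ} (hu : (u ^ 3).re < 0) (ζ : ℂ) {R : ℝ} (hR : 0 ≤ R) :
    ∃ K : ℝ, ∀ a : ℂ, ‖a‖ ≤ R → ∀ s : ℝ, 0 ≤ s →
      ‖ee u ζ a s‖ ≤ K * Real.exp (-s) ∧ ‖ee' u ζ a s‖ ≤ K * Real.exp (-s) := by
  obtain ⟨C, hC⟩ := norm_ee_le hu ζ hR
  refine ⟨(2 * (R + ‖u‖) ^ 2 + ‖ζ‖ + 1) * Real.exp C, fun a ha s hs => ?_⟩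
  have h0 := hC a ha s hs
  have hfac : ‖(a + u * s) ^ 2 - ζ‖ ≤ (2 * (R + ‖u‖) ^ 2 + ‖ζ‖ + 1) * Real.exp s := by
    have h1 : ‖a + u * s‖ ≤ (R + ‖u‖) * (1 + s) := by
      refine (norm_add_le _ _).trans ?_
      rw [norm_mul, Complex.norm_real, Real.norm_of_nonneg hs]
      have := norm_nonneg u
      nlinarith
    have h2 : ‖a + u * s‖ ^ 2 ≤ ((R + ‖u‖) * (1 + s)) ^ 2 :=
      pow_le_pow_left₀ (norm_nonneg _) h1 2
    have h3 : (1 + s) ^ 2 ≤ 2 * Real.exp s := by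
      have := Real.quadratic_le_exp_of_nonneg hs
      nlinarith
    have h4 : 1 ≤ Real.exp s := Real.one_le_exp hs
    have h5 : ‖ζ‖ ≤ ‖ζ‖ * Real.exp s := by
      have := norm_nonneg ζ
      nlinarith
    calc ‖(a + u * s) ^ 2 - ζ‖ ≤ ‖a + u * s‖ ^ 2 + ‖ζ‖ := by
          refine (norm_sub_le _ _).trans ?_
          rw [norm_pow]
      _ ≤ (R + ‖u‖) ^ 2 * (1 + s) ^ 2 + ‖ζ‖ * Real.exp s := by
          rw [mul_pow] at h2
          linarith
      _ ≤ (R + ‖u‖) ^ 2 * (2 * Real.exp s) + ‖ζ‖ * Real.exp s := by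
          have := mul_le_mul_of_nonneg_left h3 (by positivity : 0 ≤ (R + ‖u‖) ^ 2)
          linarith
      _ ≤ (2 * (R + ‖u‖) ^ 2 + ‖ζ‖ + 1) * Real.exp s := by nlinarith
  have e1 : Real.exp (C - 2 * s) = Real.exp C * Real.exp (-s) * Real.exp (-s) := by
    rw [← Real.exp_add, ← Real.exp_add]
    congr 1
    ring
  have e2 : Real.exp s * Real.exp (-s) = 1 := by rw [← Real.exp_add]; simp
  constructor
  · refine h0.trans ?_
    rw [e1]
    have h6 : Real.exp (-s) ≤ 1 := Real.exp_le_one_iff.mpr (by linarith)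
    have h7 : 1 ≤ 2 * (R + ‖u‖) ^ 2 + ‖ζ‖ + 1 := by
      have : 0 ≤ 2 * (R + ‖u‖) ^ 2 + ‖ζ‖ := by positivity
      linarith
    calc Real.exp C * Real.exp (-s) * Real.exp (-s)
        ≤ Real.exp C * Real.exp (-s) * 1 := mul_le_mul_of_nonneg_left h6 (by positivity)
      _ = 1 * Real.exp C * Real.exp (-s) := by ring
      _ ≤ (2 * (R + ‖u‖) ^ 2 + ‖ζ‖ + 1) * Real.exp C * Real.exp (-s) := by
          apply mul_le_mul_of_nonneg_right _ (Real.exp_nonneg _)
          exact mul_le_mul_of_nonneg_right h7 (Real.exp_nonneg _)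
  · have : ee' u ζ a s = ((a + u * s) ^ 2 - ζ) * ee u ζ a s := rfl
    rw [this, norm_mul]
    calc ‖(a + u * s) ^ 2 - ζ‖ * ‖ee u ζ a s‖
        ≤ ((2 * (R + ‖u‖) ^ 2 + ‖ζ‖ + 1) * Real.exp s) * Real.exp (C - 2 * s) :=
          mul_le_mul hfac h0 (norm_nonneg _) (by positivity)
      _ = (2 * (R + ‖u‖) ^ 2 + ‖ζ‖ + 1) * Real.exp C * Real.exp (-s)
            * (Real.exp s * Real.exp (-s)) := by rw [e1]; ring
      _ = (2 * (R + ‖u‖) ^ 2 + ‖ζ‖ + 1) * Real.exp C * Real.exp (-s) := by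
          rw [e2, mul_one]

/-- `H u ζ a = ∫_0^∞ f(a + u s) u ds`, `f t = exp (t^3/3 - ζ t)` -/
noncomputable def H (u ζ a : ℂ) : ℂ := ∫ s in Ioi (0:ℝ), ee u ζ a s * u

theorem integrableOn_of_bound {f : ℝ → ℂ} (hf : Continuous f) {K : ℝ}
    (h : ∀ s : ℝ, 0 ≤ s → ‖f s‖ ≤ K * Real.exp (-s)) : IntegrableOn f (Ioi 0) := by
  have hg : IntegrableOn (fun s : ℝ => K * Real.exp (-s)) (Ioi 0) :=
    (integrableOn_exp_neg_Ioi 0).const_mul _
  refine Integrable.mono' hg hf.aestronglyMeasurable ?_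
  rw [ae_restrict_iff' measurableSet_Ioi]
  exact Eventually.of_forall fun s hs => h s (le_of_lt hs)

theorem H_hasDerivAt {u : ℂ} (hu : (u ^ 3).re < 0) (ζ a : ℂ) :
    HasDerivAt (H u ζ) (-(Complex.exp (a ^ 3 / 3 - ζ * a))) a := by
  obtain ⟨K, hK⟩ := norm_ee'_le hu ζ (R := ‖a‖ + 1) (by positivity)
  have hbd : ∀ w ∈ Metric.ball a 1, ‖w‖ ≤ ‖a‖ + 1 := by
    intro w hw
    have h1 : ‖w - a‖ < 1 := by rwa [Metric.mem_ball, dist_eq_norm] at hw
    calc ‖w‖ = ‖a + (w - a)‖ := by ring_nf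
      _ ≤ ‖a‖ + ‖w - a‖ := norm_add_le _ _
      _ ≤ ‖a‖ + 1 := by linarith
  have ha1 : ‖a‖ ≤ ‖a‖ + 1 := by linarith
  have hi : IntegrableOn (ee u ζ a) (Ioi 0) :=
    integrableOn_of_bound (ee_cont u ζ a) fun s hs => (hK a ha1 s hs).1
  have hi' : IntegrableOn (ee' u ζ a) (Ioi 0) :=
    integrableOn_of_bound (ee'_cont u ζ a) fun s hs => (hK a ha1 s hs).2
  have h := hasDerivAt_integral_of_dominated_loc_of_deriv_le
    (μ := volume.restrict (Ioi (0:ℝ)))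
    (F := fun a s => ee u ζ a s) (F' := fun a s => ee' u ζ a s) (x₀ := a)
    (s := Metric.ball a 1) (bound := fun s => K * Real.exp (-s))
    (Metric.ball_mem_nhds a one_pos)
    (Eventually.of_forall fun w => (ee_cont u ζ w).aestronglyMeasurable)
    hi
    (ee'_cont u ζ a).aestronglyMeasurable
    (by
      rw [ae_restrict_iff' measurableSet_Ioi]
      exact Eventually.of_forall fun s hs w hw => (hK w (hbd w hw) s (le_of_lt hs)).2)
    ((integrableOn_exp_neg_Ioi 0).const_mul _)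
    (Eventually.of_forall fun s w _ => ee_hasDerivAt u ζ s w)
  have h2 := h.2.mul_const u
  have h3 : (∫ s in Ioi (0:ℝ), ee' u ζ a s) * u = -(Complex.exp (a ^ 3 / 3 - ζ * a)) := by
    rw [← integral_mul_const]
    have h4 := integral_Ioi_of_hasDerivAt_of_tendsto' (a := (0:ℝ))
      (f := fun s : ℝ => ee u ζ a s) (f' := fun s => ee' u ζ a s * u) (m := 0)
      (fun s _ => ee_hasDerivAt_s u ζ a s) (hi'.mul_const u)
      (by
        rw [tendsto_zero_iff_norm_tendsto_zero]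
        have h0 : Tendsto (fun s : ℝ => K * Real.exp (-s)) atTop (𝓝 0) := by
          simpa using (Real.tendsto_exp_neg_atTop_nhds_zero).const_mul K
        refine squeeze_zero' (Eventually.of_forall fun s => norm_nonneg _) ?_ h0
        filter_upwards [eventually_ge_atTop (0:ℝ)] with s hs
        exact (hK a ha1 s hs).1)
    rw [h4]
    simp [ee]
  rw [h3] at h2
  have h5 : H u ζ = fun a => (∫ s in Ioi (0:ℝ), ee u ζ a s) * u := by
    funext a
    unfold H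
    rw [integral_mul_const]
  rw [h5]
  exact h2

/-- **translation invariance** -/
theorem H_sub_const {u v : ℂ} (hu : (u ^ 3).re < 0) (hv : (v ^ 3).re < 0) (ζ a : ℂ) :
    H u ζ a - H v ζ a = A u v ζ := by
  have hd : ∀ a, HasDerivAt (fun a => H u ζ a - H v ζ a) 0 a := by
    intro a
    have := (H_hasDerivAt hu ζ a).sub (H_hasDerivAt hv ζ a)
    refine this.congr_deriv ?_
    ring
  have hconst := is_const_of_deriv_eq_zero (f := fun a => H u ζ a - H v ζ a)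
    (fun a => (hd a).differentiableAt) (fun a => (hd a).deriv) a 0
  have hconst' : H u ζ a - H v ζ a = H u ζ 0 - H v ζ 0 := hconst
  rw [hconst']
  unfold A G H
  congr 1
  · apply setIntegral_congr_fun measurableSet_Ioi
    intro s _
    simp only [ee, gk]
    rw [pow_zero, one_mul, mul_comm]
    congr 2
    ring
  · apply setIntegral_congr_fun measurableSet_Ioi
    intro s _
    simp only [ee, gk]
    rw [pow_zero, one_mul, mul_comm]
    congr 2
    ring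

/-- the integral seen from the saddle `a` (`ζ = a^2`): exponent `a t^2 + t^3/3` -/
noncomputable def Bray (u a : ℂ) : ℂ :=
  ∫ s in Ioi (0:ℝ), u * Complex.exp (a * u ^ 2 * (s:ℂ) ^ 2 + u ^ 3 * (s:ℂ) ^ 3 / 3)

theorem Bray_eq (u a : ℂ) : Bray u a = Complex.exp (2 / 3 * a ^ 3) * H u (a ^ 2) a := by
  unfold Bray H
  rw [← integral_const_mul]
  apply setIntegral_congr_fun measurableSet_Ioi
  intro s _
  simp only [ee]
  rw [mul_comm u, ← mul_assoc, ← Complex.exp_add]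
  congr 2
  ring

theorem Bray_sub {u v : ℂ} (hu : (u ^ 3).re < 0) (hv : (v ^ 3).re < 0) (a : ℂ) :
    Bray u a - Bray v a = Complex.exp (2 / 3 * a ^ 3) * A u v (a ^ 2) := by
  rw [Bray_eq, Bray_eq, ← mul_sub, H_sub_const hu hv]

/-- **nonvanishing of the two-ray integral at a (possibly degenerate) saddle** -/
theorem Bray_conj_ne_zero {u : ℂ} (hu : (u ^ 3).re < 0) (hu1 : 0 < u.re) (hu2 : 0 < u.im)
    {a : ℂ} (ha : a.re ≠ 0 ∨ a = 0) : Bray u a - Bray (conj u) a ≠ 0 := by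
  have hv : ((conj u) ^ 3).re < 0 := by
    rw [← map_pow, Complex.conj_re]
    exact hu
  rw [Bray_sub hu hv]
  apply mul_ne_zero (Complex.exp_ne_zero _)
  apply A_conj_ne_zero hu hu1 hu2
  rcases ha with h | h
  · by_cases him : a.im = 0
    · right
      have : (a ^ 2).re = a.re ^ 2 - a.im ^ 2 := by
        rw [sq]
        simp only [Complex.mul_re]
        ring
      rw [this, him]
      nlinarith [sq_nonneg a.re]
    · left
      have : (a ^ 2).im = 2 * a.re * a.im := by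
        rw [sq]
        simp only [Complex.mul_im]
        ring
      rw [this]
      exact mul_ne_zero (mul_ne_zero two_ne_zero h) him
  · right
    rw [h]
    simp

end Pool.Agent.Shadow75
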