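import Pool.Agent.Shadow75.Ray
import Pool.Agent.Shadow75.Shift

/-!
# Two-ray integrals at a nearly degenerate saddle

`E k t` is the normalised integrand at the point `w_k + u t` (`w_k` the saddle),
`E k t = exp (N k * φ k t)` with `φ k t = β k u² t² + γ k u³ t³ + O(t⁴)`.
-/

set_option autoImplicit false

open Complex MeasureTheory Set Filter Topology
open scoped ComplexConjugate

namespace Pool.Agent.Shadow75

/-- local data along the ray `u` -/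
structure RayData (N : ℕ → ℝ) (β γ : ℕ → ℂ) (u : ℂ) (r M : ℝ) (E : ℕ → ℝ → ℂ) : Prop where
  meas : ∀ k, Measurable (E k)
  expand : ∀ᶠ k in atTop, ∀ t ∈ Ioc (0:ℝ) r, ∃ φ : ℂ, E k t = Complex.exp (N k * φ) ∧
    ‖φ - (β k * u ^ 2 * (t:ℂ) ^ 2 + γ k * u ^ 3 * (t:ℂ) ^ 3)‖ ≤ M * t ^ 4

theorem RayData.comp {N : ℕ → ℝ} {β γ : ℕ → ℂ} {u : ℂ} {r M : ℝ} {E : ℕ → ℝ → ℂ}
    (h : RayData N β γ u r M E) {f : ℕ → ℕ} (hf : Tendsto f atTop atTop) :
    RayData (N ∘ f) (β ∘ f) (γ ∘ f) u r M (E ∘ f) where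
  meas := fun k => h.meas (f k)
  expand := hf.eventually h.expand

/-- main limit along one ray, general scale -/
theorem ray_main {N : ℕ → ℝ} {β γ : ℕ → ℂ} {u : ℂ} {r M : ℝ} {E : ℕ → ℝ → ℂ}
    (hD : RayData N β γ u r M E) (hr : 0 < r) {lam : ℕ → ℝ} {b c : ℂ} {g : ℝ → ℝ}
    (hlam : ∀ᶠ k in atTop, 0 < lam k) (hlam0 : Tendsto lam atTop (𝓝 0))
    (hN : ∀ᶠ k in atTop, 0 ≤ N k)
    (hb : Tendsto (fun k => ((N k * lam k ^ 2 : ℝ) : ℂ) * β k) atTop (𝓝 b))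
    (hc : Tendsto (fun k => ((N k * lam k ^ 3 : ℝ) : ℂ) * γ k) atTop (𝓝 c))
    (h4 : Tendsto (fun k => N k * lam k ^ 4) atTop (𝓝 0))
    (hg : IntegrableOn g (Ioi 0)) (hg0 : ∀ s ∈ Ioi (0:ℝ), 0 ≤ g s)
    (hdom : ∀ᶠ k in atTop, ∀ t ∈ Ioc (0:ℝ) r, ‖E k t‖ ≤ g (t / lam k)) :
    Tendsto (fun k => (lam k : ℂ)⁻¹ * ∫ t in (0:ℝ)..r, E k t) atTop
      (𝓝 (∫ s in Ioi (0:ℝ), Complex.exp (b * u ^ 2 * (s:ℂ) ^ 2 + c * u ^ 3 * (s:ℂ) ^ 3))) := by
  have hrl : Tendsto (fun k => r / lam k) atTop atTop := by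
    have h1 : Tendsto lam atTop (𝓝[>] 0) := by
      rw [tendsto_nhdsWithin_iff]
      exact ⟨hlam0, hlam⟩
    have h2 := (tendsto_inv_nhdsGT_zero.comp h1).const_mul_atTop hr
    refine h2.congr fun k => ?_
    simp [Function.comp, div_eq_mul_inv]
  refine scaled_tendsto hlam (Eventually.of_forall fun _ => hr) hrl hg hg0 ?_ hdom ?_
  · intro s hs
    have hs0 : (0:ℝ) < s := hs
    -- pointwise convergence
    have hlim : Tendsto (fun k => ((N k * lam k ^ 2 : ℝ) : ℂ) * β k * u ^ 2 * (s:ℂ) ^ 2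
        + ((N k * lam k ^ 3 : ℝ) : ℂ) * γ k * u ^ 3 * (s:ℂ) ^ 3) atTop
        (𝓝 (b * u ^ 2 * (s:ℂ) ^ 2 + c * u ^ 3 * (s:ℂ) ^ 3)) :=
      ((hb.mul_const (u ^ 2)).mul_const _).add ((hc.mul_const (u ^ 3)).mul_const _)
    have herr : Tendsto (fun k => M * s ^ 4 * (N k * lam k ^ 4)) atTop (𝓝 0) := by
      simpa using h4.const_mul (M * s ^ 4)
    -- choose the exponents
    have hex : ∀ᶠ k in atTop, ∃ φ : ℂ, E k (lam k * s) = Complex.exp φ ∧
        ‖φ - (((N k * lam k ^ 2 : ℝ) : ℂ) * β k * u ^ 2 * (s:ℂ) ^ 2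
        + ((N k * lam k ^ 3 : ℝ) : ℂ) * γ k * u ^ 3 * (s:ℂ) ^ 3)‖
          ≤ M * s ^ 4 * (N k * lam k ^ 4) := by
      filter_upwards [hD.expand, hlam, hrl.eventually_ge_atTop s, hN] with k hk hlk hrk hNk
      have hmem : lam k * s ∈ Ioc (0:ℝ) r := by
        refine ⟨mul_pos hlk hs0, ?_⟩
        rw [le_div_iff₀ hlk] at hrk
        linarith
      obtain ⟨φ, h1, h2⟩ := hk _ hmem
      refine ⟨N k * φ, h1, ?_⟩
      have h3 : (N k : ℂ) * φ - (((N k * lam k ^ 2 : ℝ) : ℂ) * β k * u ^ 2 * (s:ℂ) ^ 2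
        + ((N k * lam k ^ 3 : ℝ) : ℂ) * γ k * u ^ 3 * (s:ℂ) ^ 3)
          = N k * (φ - (β k * u ^ 2 * ((lam k * s : ℝ):ℂ) ^ 2
            + γ k * u ^ 3 * ((lam k * s : ℝ):ℂ) ^ 3)) := by
        push_cast
        ring
      rw [h3, norm_mul, Complex.norm_real, Real.norm_of_nonneg hNk]
      calc N k * ‖φ - (β k * u ^ 2 * ((lam k * s : ℝ):ℂ) ^ 2
            + γ k * u ^ 3 * ((lam k * s : ℝ):ℂ) ^ 3)‖ ≤ N k * (M * (lam k * s) ^ 4) :=
            mul_le_mul_of_nonneg_left h2 hNk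
        _ = M * s ^ 4 * (N k * lam k ^ 4) := by ring
    -- conclude with a sequence of exponents
    choose! φ hφ using fun k (hk : ∃ φ : ℂ, E k (lam k * s) = Complex.exp φ ∧
        ‖φ - (((N k * lam k ^ 2 : ℝ) : ℂ) * β k * u ^ 2 * (s:ℂ) ^ 2
        + ((N k * lam k ^ 3 : ℝ) : ℂ) * γ k * u ^ 3 * (s:ℂ) ^ 3)‖
          ≤ M * s ^ 4 * (N k * lam k ^ 4)) => hk
    have hφlim : Tendsto φ atTop (𝓝 (b * u ^ 2 * (s:ℂ) ^ 2 + c * u ^ 3 * (s:ℂ) ^ 3)) := by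
      have hdiff : Tendsto (fun k => φ k - (((N k * lam k ^ 2 : ℝ) : ℂ) * β k * u ^ 2 * (s:ℂ) ^ 2
        + ((N k * lam k ^ 3 : ℝ) : ℂ) * γ k * u ^ 3 * (s:ℂ) ^ 3)) atTop (𝓝 0) := by
        apply squeeze_zero_norm' _ herr
        filter_upwards [hex] with k hk
        exact (hφ k hk).2
      have := hdiff.add hlim
      simpa using this
    have h5 := (Complex.continuous_exp.tendsto _).comp hφlim
    refine h5.congr' ?_
    filter_upwards [hex] with k hk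
    exact (hφ k hk).1.symm
  · refine Eventually.of_forall fun k => ?_
    exact ((hD.meas k).comp (measurable_const.mul measurable_id)).aestronglyMeasurable

/-- real part estimate: cubic regime -/
theorem dom_cubic {N : ℕ → ℝ} {β γ : ℕ → ℂ} {u : ℂ} {r M c' : ℝ} {E : ℕ → ℝ → ℂ}
    (hD : RayData N β γ u r M E) (_hc' : 0 < c') (hM : 0 ≤ M) (hMr : M * r ≤ c' / 2)
    (hN : ∀ᶠ k in atTop, 0 ≤ N k)
    (hγ : ∀ᶠ k in atTop, (γ k * u ^ 3).re ≤ -c')
    (hβ : ∀ᶠ k in atTop, (β k * u ^ 2).re ≤ 0) :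
    ∀ᶠ k in atTop, ∀ t ∈ Ioc (0:ℝ) r, ‖E k t‖ ≤
      Real.exp (N k * ((β k * u ^ 2).re * t ^ 2) - N k * (c' / 2 * t ^ 3)) := by
  filter_upwards [hD.expand, hN, hγ, hβ] with k hk hNk hγk hβk t ht
  obtain ⟨φ, h1, h2⟩ := hk t ht
  rw [h1, Complex.norm_exp, Complex.re_ofReal_mul]
  apply Real.exp_le_exp.mpr
  rw [← mul_sub]
  apply mul_le_mul_of_nonneg_left _ hNk
  have h3 : φ.re ≤ (β k * u ^ 2 * (t:ℂ) ^ 2 + γ k * u ^ 3 * (t:ℂ) ^ 3).re + M * t ^ 4 := by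
    have h4 := (Complex.re_le_norm (φ - (β k * u ^ 2 * (t:ℂ) ^ 2 + γ k * u ^ 3 * (t:ℂ) ^ 3))).trans h2
    rw [Complex.sub_re] at h4
    linarith
  have h5 : (β k * u ^ 2 * (t:ℂ) ^ 2 + γ k * u ^ 3 * (t:ℂ) ^ 3).re
      = (β k * u ^ 2).re * t ^ 2 + (γ k * u ^ 3).re * t ^ 3 := by
    rw [Complex.add_re]
    congr 1
    · rw [mul_comm, ← Complex.ofReal_pow, Complex.re_ofReal_mul, mul_comm]
    · rw [mul_comm, ← Complex.ofReal_pow, Complex.re_ofReal_mul, mul_comm]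
  rw [h5] at h3
  have ht0 : 0 < t := ht.1
  have h6 : (γ k * u ^ 3).re * t ^ 3 ≤ -c' * t ^ 3 :=
    mul_le_mul_of_nonneg_right hγk (by positivity)
  have h7 : M * t ^ 4 ≤ c' / 2 * t ^ 3 := by
    have h8 : M * t ≤ c' / 2 := (mul_le_mul_of_nonneg_left ht.2 hM).trans hMr
    have h9 : M * t ^ 4 = (M * t) * t ^ 3 := by ring
    rw [h9]
    exact mul_le_mul_of_nonneg_right h8 (by positivity)
  linarith

theorem integrable_exp_neg_cube {c : ℝ} (hc : 0 < c) :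
    IntegrableOn (fun s : ℝ => Real.exp (-(c * s ^ 3))) (Ioi 0) := by
  obtain ⟨C, hC⟩ := cubic_bound (a := c) hc 0
  have hg : IntegrableOn (fun s : ℝ => Real.exp C * Real.exp (-s)) (Ioi 0) :=
    (integrableOn_exp_neg_Ioi 0).const_mul _
  refine Integrable.mono' hg (by fun_prop) ?_
  rw [ae_restrict_iff' measurableSet_Ioi]
  refine Eventually.of_forall fun s hs => ?_
  have hs0 : (0:ℝ) < s := hs
  rw [Real.norm_of_nonneg (Real.exp_nonneg _), ← Real.exp_add]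
  apply Real.exp_le_exp.mpr
  have := hC s hs0.le
  linarith

theorem integrable_exp_neg_sq {c : ℝ} (hc : 0 < c) :
    IntegrableOn (fun s : ℝ => Real.exp (-(c * s ^ 2))) (Ioi 0) := by
  have h := (integrable_exp_neg_mul_sq hc).integrableOn (s := Ioi 0)
  refine h.congr_fun ?_ measurableSet_Ioi
  intro s _
  simp

/-- cubic regime: `N^(1/3) β → b` -/
theorem ray_cubic {N : ℕ → ℝ} {β γ : ℕ → ℂ} {u γ0 b : ℂ} {r M c' : ℝ} {E : ℕ → ℝ → ℂ}
    (hD : RayData N β γ u r M E) (hr : 0 < r) (hc' : 0 < c') (hM : 0 ≤ M) (hMr : M * r ≤ c' / 2)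
    (hN : Tendsto N atTop atTop) (hγ0 : Tendsto γ atTop (𝓝 γ0))
    (hγ : ∀ᶠ k in atTop, (γ k * u ^ 3).re ≤ -c')
    (hβ : ∀ᶠ k in atTop, (β k * u ^ 2).re ≤ 0)
    (hb : Tendsto (fun k => ((N k ^ ((1:ℝ) / 3) : ℝ) : ℂ) * β k) atTop (𝓝 b)) :
    Tendsto (fun k => ((N k ^ ((1:ℝ) / 3) : ℝ) : ℂ) * ∫ t in (0:ℝ)..r, E k t) atTop
      (𝓝 (∫ s in Ioi (0:ℝ), Complex.exp (b * u ^ 2 * (s:ℂ) ^ 2 + γ0 * u ^ 3 * (s:ℂ) ^ 3))) := by
  have hNpos : ∀ᶠ k in atTop, 0 < N k := hN.eventually_gt_atTop 0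
  have hN0 : ∀ᶠ k in atTop, 0 ≤ N k := hNpos.mono fun _ h => h.le
  set lam : ℕ → ℝ := fun k => (N k ^ ((1:ℝ) / 3))⁻¹ with hlamdef
  have hcube : ∀ᶠ k in atTop, (N k ^ ((1:ℝ) / 3)) ^ 3 = N k := by
    filter_upwards [hN0] with k hk
    rw [← Real.rpow_natCast, ← Real.rpow_mul hk]
    norm_num
  have hx : Tendsto (fun k => N k ^ ((1:ℝ) / 3)) atTop atTop :=
    (tendsto_rpow_atTop (by norm_num)).comp hN
  have hlam : ∀ᶠ k in atTop, 0 < lam k := by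
    filter_upwards [hNpos] with k hk
    exact inv_pos.mpr (Real.rpow_pos_of_pos hk _)
  have hlam0 : Tendsto lam atTop (𝓝 0) := tendsto_inv_atTop_zero.comp hx
  have h := ray_main hD hr (lam := lam) (b := b) (c := γ0)
    (g := fun s => Real.exp (-(c' / 2 * s ^ 3))) hlam hlam0 hN0
    (by
      refine hb.congr' ?_
      filter_upwards [hcube, hNpos] with k hk hNk
      have hy : N k ^ ((1:ℝ) / 3) ≠ 0 := (Real.rpow_pos_of_pos hNk _).ne'
      congr 2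
      simp only [hlamdef]
      generalize N k ^ ((1:ℝ) / 3) = y at hk hy ⊢
      rw [← hk]
      field_simp)
    (by
      have h1 : Tendsto (fun k => (1:ℂ) * γ k) atTop (𝓝 γ0) := by simpa using hγ0
      refine h1.congr' ?_
      filter_upwards [hcube, hNpos] with k hk hNk
      have hy : N k ^ ((1:ℝ) / 3) ≠ 0 := (Real.rpow_pos_of_pos hNk _).ne'
      congr 1
      simp only [hlamdef]
      have : N k * (N k ^ ((1:ℝ) / 3))⁻¹ ^ 3 = 1 := by
        rw [inv_pow, hk]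
        exact mul_inv_cancel₀ hNk.ne'
      rw [this]
      simp)
    (by
      refine hlam0.congr' ?_
      filter_upwards [hcube, hNpos] with k hk hNk
      have hy : N k ^ ((1:ℝ) / 3) ≠ 0 := (Real.rpow_pos_of_pos hNk _).ne'
      simp only [hlamdef]
      have : N k * (N k ^ ((1:ℝ) / 3))⁻¹ ^ 4
          = (N k * (N k ^ ((1:ℝ) / 3))⁻¹ ^ 3) * (N k ^ ((1:ℝ) / 3))⁻¹ := by ring
      rw [this, inv_pow, hk, mul_inv_cancel₀ hNk.ne', one_mul])
    (integrable_exp_neg_cube (by positivity)) (fun s _ => Real.exp_nonneg _)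
    (by
      filter_upwards [dom_cubic hD hc' hM hMr hN0 hγ hβ, hcube, hNpos, hβ] with k hk hck hNk hβk t ht
      refine (hk t ht).trans ?_
      apply Real.exp_le_exp.mpr
      have h1 : N k * ((β k * u ^ 2).re * t ^ 2) ≤ 0 :=
        mul_nonpos_of_nonneg_of_nonpos hNk.le (mul_nonpos_of_nonpos_of_nonneg hβk (sq_nonneg t))
      have h2 : c' / 2 * (t / lam k) ^ 3 = N k * (c' / 2 * t ^ 3) := by
        simp only [hlamdef]
        rw [div_inv_eq_mul, mul_pow, hck]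
        ring
      rw [h2]
      linarith)
  refine h.congr' ?_
  filter_upwards with k
  congr 1
  simp [hlamdef]

/-- Gaussian regime with `β → 0` allowed: `N |β|^3 → ∞`, `β/|β| → ω` -/
theorem ray_gauss {N : ℕ → ℝ} {β γ : ℕ → ℂ} {u γ0 ω : ℂ} {r M c c' : ℝ} {E : ℕ → ℝ → ℂ}
    (hD : RayData N β γ u r M E) (hr : 0 < r) (hc : 0 < c) (hc' : 0 < c') (hM : 0 ≤ M)
    (hMr : M * r ≤ c' / 2)
    (hN : Tendsto N atTop atTop) (hγ0 : Tendsto γ atTop (𝓝 γ0))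
    (hγ : ∀ᶠ k in atTop, (γ k * u ^ 3).re ≤ -c')
    (hβ : ∀ᶠ k in atTop, (β k * u ^ 2).re ≤ -c * ‖β k‖)
    (hβ1 : ∀ᶠ k in atTop, ‖β k‖ ≤ 1)
    (hω : Tendsto (fun k => ((‖β k‖⁻¹ : ℝ) : ℂ) * β k) atTop (𝓝 ω))
    (hbig : Tendsto (fun k => N k * ‖β k‖ ^ 3) atTop atTop) :
    Tendsto (fun k => ((Real.sqrt (N k * ‖β k‖) : ℝ) : ℂ) * ∫ t in (0:ℝ)..r, E k t) atTop
      (𝓝 (∫ s in Ioi (0:ℝ), Complex.exp (ω * u ^ 2 * (s:ℂ) ^ 2 + 0 * u ^ 3 * (s:ℂ) ^ 3))) := by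
  have hNpos : ∀ᶠ k in atTop, 0 < N k := hN.eventually_gt_atTop 0
  have hN0 : ∀ᶠ k in atTop, 0 ≤ N k := hNpos.mono fun _ h => h.le
  have hβpos : ∀ᶠ k in atTop, 0 < ‖β k‖ := by
    filter_upwards [hbig.eventually_gt_atTop 0, hNpos] with k hk hNk
    by_contra h
    have h0 : ‖β k‖ = 0 := le_antisymm (not_lt.mp h) (norm_nonneg _)
    rw [h0] at hk
    simp at hk
  set x : ℕ → ℝ := fun k => Real.sqrt (N k * ‖β k‖) with hxdef
  set lam : ℕ → ℝ := fun k => (x k)⁻¹ with hlamdef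
  have hxsq : ∀ᶠ k in atTop, x k ^ 2 = N k * ‖β k‖ := by
    filter_upwards [hN0] with k hk
    exact Real.sq_sqrt (mul_nonneg hk (norm_nonneg _))
  have hprod : Tendsto (fun k => N k * ‖β k‖) atTop atTop := by
    refine tendsto_atTop_mono' _ ?_ hbig
    filter_upwards [hN0, hβ1] with k hk hk1
    apply mul_le_mul_of_nonneg_left _ hk
    have h0 := norm_nonneg (β k)
    calc ‖β k‖ ^ 3 = ‖β k‖ * ‖β k‖ ^ 2 := by ring
      _ ≤ ‖β k‖ * 1 := by
        apply mul_le_mul_of_nonneg_left _ h0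
        exact pow_le_one₀ h0 hk1
      _ = ‖β k‖ := mul_one _
  have hx : Tendsto x atTop atTop := by
    have := (tendsto_rpow_atTop (y := (1:ℝ)/2) (by norm_num)).comp hprod
    refine this.congr fun k => ?_
    simp only [Function.comp, hxdef]
    rw [Real.sqrt_eq_rpow]
  have hxpos : ∀ᶠ k in atTop, 0 < x k := hx.eventually_gt_atTop 0
  have hlam : ∀ᶠ k in atTop, 0 < lam k := hxpos.mono fun _ h => inv_pos.mpr h
  have hlam0 : Tendsto lam atTop (𝓝 0) := tendsto_inv_atTop_zero.comp hx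
  -- `N λ^2 = 1/|β|`, `(N λ^3)^2 = 1/(N |β|^3)`, `N λ^4 = 1/(N |β|^2)`
  have h3 : Tendsto (fun k => N k * lam k ^ 3) atTop (𝓝 0) := by
    have h4 : Tendsto (fun k => Real.sqrt ((N k * ‖β k‖ ^ 3)⁻¹)) atTop (𝓝 0) := by
      have := (Real.continuous_sqrt.tendsto 0).comp (tendsto_inv_atTop_zero.comp hbig)
      simpa [Function.comp_def] using this
    refine h4.congr' ?_
    filter_upwards [hNpos, hβpos, hxsq, hxpos] with k hNk hβk hk hxk
    rw [Real.sqrt_eq_iff_mul_self_eq (by positivity) (by positivity)]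
    simp only [hlamdef]
    have h5 : N k * (x k)⁻¹ ^ 3 * (N k * (x k)⁻¹ ^ 3) = N k ^ 2 * ((x k ^ 2) ^ 3)⁻¹ := by
      field_simp
    rw [h5, hk]
    field_simp
  have h4 : Tendsto (fun k => N k * lam k ^ 4) atTop (𝓝 0) := by
    have := h3.mul hlam0
    rw [mul_zero] at this
    refine this.congr fun k => ?_
    ring
  have h := ray_main hD hr (lam := lam) (b := ω) (c := 0)
    (g := fun s => Real.exp (-(c * s ^ 2))) hlam hlam0 hN0
    (by
      refine hω.congr' ?_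
      filter_upwards [hNpos, hβpos, hxsq, hxpos] with k hNk hβk hk hxk
      congr 2
      simp only [hlamdef]
      rw [inv_pow, hk]
      have := hNk.ne'
      have := hβk.ne'
      field_simp)
    (by
      have h5 : Tendsto (fun k => ((N k * lam k ^ 3 : ℝ) : ℂ)) atTop (𝓝 ((0:ℝ):ℂ)) :=
        (Complex.continuous_ofReal.tendsto 0).comp h3
      simpa using h5.mul hγ0)
    h4
    (integrable_exp_neg_sq hc) (fun s _ => Real.exp_nonneg _)
    (by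
      have hβ' : ∀ᶠ k in atTop, (β k * u ^ 2).re ≤ 0 := by
        filter_upwards [hβ] with k hk
        have := mul_nonneg hc.le (norm_nonneg (β k))
        linarith
      filter_upwards [dom_cubic hD hc' hM hMr hN0 hγ hβ', hNpos, hβ, hxsq] with k hk hNk hβk hxk t ht
      refine (hk t ht).trans ?_
      apply Real.exp_le_exp.mpr
      have h1 : N k * ((β k * u ^ 2).re * t ^ 2) ≤ N k * (-c * ‖β k‖ * t ^ 2) :=
        mul_le_mul_of_nonneg_left (mul_le_mul_of_nonneg_right hβk (sq_nonneg t)) hNk.le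
      have h2 : c * (t / lam k) ^ 2 = N k * (c * ‖β k‖ * t ^ 2) := by
        simp only [hlamdef]
        rw [div_inv_eq_mul, mul_pow, hxk]
        ring
      have h3 : 0 ≤ N k * (c' / 2 * t ^ 3) := by
        have := ht.1
        positivity
      rw [h2]
      linarith)
  refine h.congr' ?_
  filter_upwards with k
  congr 1
  simp only [hlamdef, hxdef, Complex.ofReal_inv, inv_inv]

end Pool.Agent.Shadow75
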