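import Pool.Agent.Shadow75.Merge

/-!
# Lower bound for the two-ray integral at a nearly degenerate saddle
-/

set_option autoImplicit false

open Complex MeasureTheory Set Filter Topology
open scoped ComplexConjugate

namespace Pool.Agent.Shadow75

theorem re_sqrt_pos {z : ℂ} (hz : 0 < z.re) : 0 < (z ^ (1 / 2 : ℂ)).re := by
  have hz0 : z ≠ 0 := by
    intro h
    rw [h] at hz
    simp at hz
  rw [Complex.cpow_def_of_ne_zero hz0, Complex.exp_re]
  apply mul_pos (Real.exp_pos _)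
  have h1 : (Complex.log z * (1 / 2)).im = z.arg / 2 := by
    have : Complex.log z * (1 / 2) = ((1 / 2 : ℝ) : ℂ) * Complex.log z := by
      push_cast
      ring
    rw [this, Complex.im_ofReal_mul, Complex.log_im]
    ring
  rw [h1]
  have h2 : |z.arg| < Real.pi / 2 := Complex.abs_arg_lt_pi_div_two_iff.mpr (Or.inl hz)
  rw [abs_lt] at h2
  apply Real.cos_pos_of_mem_Ioo
  constructor <;> linarith [Real.pi_pos]

theorem sqrt_sq' (z : ℂ) : (z ^ (1 / 2 : ℂ)) ^ 2 = z := by
  rw [← Complex.cpow_nat_mul]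
  norm_num

/-- the two half Gaussians along `u` and `v` are different -/
theorem gaussDiff_ne {u v ω : ℂ} (h1 : (ω * u ^ 2).re < 0) (h2 : (ω * v ^ 2).re < 0)
    (h3 : (u * conj v).re < 0) :
    u * ∫ s in Ioi (0:ℝ), Complex.exp (ω * u ^ 2 * (s:ℂ) ^ 2 + 0 * u ^ 3 * (s:ℂ) ^ 3) ≠
      v * ∫ s in Ioi (0:ℝ), Complex.exp (ω * v ^ 2 * (s:ℂ) ^ 2 + 0 * v ^ 3 * (s:ℂ) ^ 3) := by
  have gen : ∀ w : ℂ, (ω * w ^ 2).re < 0 →
      ∃ S : ℂ, 0 < S.re ∧ 0 < (S ^ 2).re ∧
        ∫ s in Ioi (0:ℝ), Complex.exp (ω * w ^ 2 * (s:ℂ) ^ 2 + 0 * w ^ 3 * (s:ℂ) ^ 3) = S / 2 := by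
    intro w hw
    have hb : 0 < (-(ω * w ^ 2)).re := by
      rw [Complex.neg_re]
      linarith
    have hb0 : -(ω * w ^ 2) ≠ 0 := by
      intro h
      rw [h] at hb
      simp at hb
    have hz : 0 < ((Real.pi : ℂ) / (-(ω * w ^ 2))).re := by
      rw [div_eq_mul_inv, Complex.re_ofReal_mul, Complex.inv_re]
      exact mul_pos Real.pi_pos (div_pos hb (Complex.normSq_pos.mpr hb0))
    refine ⟨((Real.pi : ℂ) / (-(ω * w ^ 2))) ^ (1 / 2 : ℂ), re_sqrt_pos hz, ?_, ?_⟩
    · rw [sqrt_sq']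
      exact hz
    · rw [← integral_gauss_half hb]
      apply setIntegral_congr_fun measurableSet_Ioi
      intro s _
      simp only
      congr 1
      ring
  obtain ⟨S1, hS1, hS1', e1⟩ := gen u h1
  obtain ⟨S2, hS2, hS2', e2⟩ := gen v h2
  rw [e1, e2]
  intro h
  have h4 : u * S1 = v * S2 := by linear_combination 2 * h
  have hS1r : S1.im ^ 2 < S1.re ^ 2 := by
    rw [sq, Complex.mul_re] at hS1'
    nlinarith
  have hS2r : S2.im ^ 2 < S2.re ^ 2 := by
    rw [sq, Complex.mul_re] at hS2'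
    nlinarith
  have h5 : 0 < S1.re * S2.re + S1.im * S2.im := by
    have h6 : (S1.im * S2.im) ^ 2 < (S1.re * S2.re) ^ 2 := by
      rw [mul_pow, mul_pow]
      have : 0 ≤ S1.im ^ 2 := sq_nonneg _
      have : 0 ≤ S2.im ^ 2 := sq_nonneg _
      have : 0 < S1.re ^ 2 := by positivity
      nlinarith
    have h7 := abs_lt_of_sq_lt_sq h6 (by positivity)
    have := (abs_lt.mp h7).1
    linarith
  -- `u conj v |S2|^2 = ... `
  have hS10 : S1 ≠ 0 := by
    intro h
    rw [h] at hS1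
    simp at hS1
  have hu : u = v * S2 / S1 := by
    field_simp
    exact h4
  have h8 : u * conj v = ((Complex.normSq v / Complex.normSq S1 : ℝ) : ℂ) * (S2 * conj S1) := by
    have hn : (Complex.normSq S1 : ℂ) = S1 * conj S1 := (Complex.mul_conj S1).symm
    have hn2 : (Complex.normSq v : ℂ) = v * conj v := (Complex.mul_conj v).symm
    have hc0 : conj S1 ≠ 0 := by
      intro h
      exact hS10 (by simpa using congrArg conj h)
    push_cast
    rw [hn, hn2, hu]
    field_simp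
  rw [h8, Complex.re_ofReal_mul] at h3
  have h9 : (S2 * conj S1).re = S1.re * S2.re + S1.im * S2.im := by
    rw [Complex.mul_re, Complex.conj_re, Complex.conj_im]
    ring
  rw [h9] at h3
  have h10 : 0 ≤ Complex.normSq v / Complex.normSq S1 :=
    div_nonneg (Complex.normSq_nonneg _) (Complex.normSq_nonneg _)
  nlinarith [mul_nonneg h10 h5.le]

/-- the cubic-regime limit is different along `u` and `v` -/
theorem cubicDiff_ne {u v b γ0 κ : ℂ} (hκ : κ ^ 3 = 3 * γ0) (hκ0 : κ ≠ 0)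
    (hconj : κ * v = conj (κ * u)) (h1 : 0 < (κ * u).re) (h2 : 0 < (κ * u).im)
    (h3 : ((κ * u) ^ 3).re < 0) (h4 : ((κ * u) ^ 2).re < 0)
    (hb : b = 0 ∨ ((b * u ^ 2).re < 0 ∧ (b * v ^ 2).re < 0)) :
    u * ∫ s in Ioi (0:ℝ), Complex.exp (b * u ^ 2 * (s:ℂ) ^ 2 + γ0 * u ^ 3 * (s:ℂ) ^ 3) ≠
      v * ∫ s in Ioi (0:ℝ), Complex.exp (b * v ^ 2 * (s:ℂ) ^ 2 + γ0 * v ^ 3 * (s:ℂ) ^ 3) := by
  set a : ℂ := b / κ ^ 2 with ha
  have gen : ∀ w : ℂ, Bray (κ * w) a =
      κ * (w * ∫ s in Ioi (0:ℝ), Complex.exp (b * w ^ 2 * (s:ℂ) ^ 2 + γ0 * w ^ 3 * (s:ℂ) ^ 3)) := by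
    intro w
    unfold Bray
    rw [← integral_const_mul, ← integral_const_mul]
    apply setIntegral_congr_fun measurableSet_Ioi
    intro s _
    simp only
    rw [← mul_assoc]
    congr 2
    have e1 : a * (κ * w) ^ 2 = b * w ^ 2 := by
      rw [ha]
      field_simp
    have e2 : (κ * w) ^ 3 / 3 = γ0 * w ^ 3 := by
      rw [mul_pow, hκ]
      ring
    rw [e1]
    linear_combination (s:ℂ) ^ 3 * e2
  have hane : a.re ≠ 0 ∨ a = 0 := by
    rcases hb with hb | ⟨hb1, hb2⟩
    · right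
      rw [ha, hb, zero_div]
    · left
      intro h0
      have e1 : a * (κ * u) ^ 2 = b * u ^ 2 := by
        rw [ha]
        field_simp
      have e2 : a * (κ * v) ^ 2 = b * v ^ 2 := by
        rw [ha]
        field_simp
      rw [← e1] at hb1
      rw [← e2, hconj, ← map_pow] at hb2
      rw [Complex.mul_re] at hb1 hb2
      rw [Complex.conj_re, Complex.conj_im] at hb2
      rw [h0] at hb1 hb2
      linarith
  intro h
  have h5 := Bray_conj_ne_zero h3 h1 h2 hane
  apply h5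
  rw [← hconj, gen u, gen v, h, sub_self]

/-- geometry of the two rays -/
structure RayGeom (u v γ0 κ : ℂ) : Prop where
  cube : κ ^ 3 = 3 * γ0
  ne : κ ≠ 0
  conj_eq : κ * v = conj (κ * u)
  re_pos : 0 < (κ * u).re
  im_pos : 0 < (κ * u).im
  re3 : ((κ * u) ^ 3).re < 0
  re2 : ((κ * u) ^ 2).re < 0

theorem RayGeom.obtuse {u v γ0 κ : ℂ} (h : RayGeom u v γ0 κ) : (u * conj v).re < 0 := by
  have h1 : (κ * u) ^ 2 = ((Complex.normSq κ : ℝ) : ℂ) * (u * conj v) := by
    have h2 : conj (κ * v) = κ * u := by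
      rw [h.conj_eq, Complex.conj_conj]
    have h3 : (Complex.normSq κ : ℂ) = κ * conj κ := (Complex.mul_conj κ).symm
    rw [h3]
    rw [map_mul] at h2
    calc (κ * u) ^ 2 = (κ * u) * (κ * u) := sq _
      _ = (κ * u) * (conj κ * conj v) := by rw [h2]
      _ = _ := by ring
  have h2 := h.re2
  rw [h1, Complex.re_ofReal_mul] at h2
  have h3 : 0 < Complex.normSq κ := Complex.normSq_pos.mpr h.ne
  by_contra h4
  push Not at h4
  have := mul_nonneg h3.le h4
  linarith

/-- **Lower bound for the two-ray integral, uniform down to the degenerate saddle.** -/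
theorem two_ray_lower {N : ℕ → ℝ} {β γ : ℕ → ℂ} {u v γ0 κ : ℂ} {r M c c' : ℝ}
    {E E' : ℕ → ℝ → ℂ} (hG : RayGeom u v γ0 κ)
    (hD : RayData N β γ u r M E) (hD' : RayData N β γ v r M E')
    (hr : 0 < r) (hc : 0 < c) (hc' : 0 < c') (hM : 0 ≤ M) (hMr : M * r ≤ c' / 2)
    (hN : Tendsto N atTop atTop) (hβ0 : Tendsto β atTop (𝓝 0)) (hγ0 : Tendsto γ atTop (𝓝 γ0))
    (hγu : ∀ᶠ k in atTop, (γ k * u ^ 3).re ≤ -c')
    (hγv : ∀ᶠ k in atTop, (γ k * v ^ 3).re ≤ -c')
    (hβu : ∀ᶠ k in atTop, (β k * u ^ 2).re ≤ -c * ‖β k‖)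
    (hβv : ∀ᶠ k in atTop, (β k * v ^ 2).re ≤ -c * ‖β k‖) :
    ∃ c1 : ℝ, 0 < c1 ∧ ∀ᶠ k in atTop, c1 ≤ Real.sqrt (N k) *
      ‖u * (∫ t in (0:ℝ)..r, E k t) - v * (∫ t in (0:ℝ)..r, E' k t)‖ := by
  by_contra hcon
  push Not at hcon
  set D : ℕ → ℂ := fun k => u * (∫ t in (0:ℝ)..r, E k t) - v * (∫ t in (0:ℝ)..r, E' k t) with hDdef
  have hfreq : ∀ j : ℕ, ∃ᶠ k in atTop, Real.sqrt (N k) * ‖D k‖ < 1 / ((j:ℝ) + 1) := by
    intro j
    have h := hcon (1 / ((j:ℝ) + 1)) (by positivity)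
    refine h.mono fun k hk => ?_
    exact hk
  obtain ⟨f, hf, hfj⟩ := extraction_forall_of_frequently hfreq
  have hft : Tendsto f atTop atTop := hf.tendsto_atTop
  have hsmall : Tendsto (fun j => Real.sqrt (N (f j)) * ‖D (f j)‖) atTop (𝓝 0) := by
    apply squeeze_zero (fun j => by positivity) (fun j => (hfj j).le)
    exact tendsto_one_div_add_atTop_nhds_zero_nat
  -- contradiction principle: no subsequence may have a nonzero scaled limit
  have contra : ∀ (g : ℕ → ℕ), Tendsto g atTop atTop → ∀ (x : ℕ → ℝ) (L : ℂ),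
      (∀ᶠ j in atTop, 0 ≤ x j ∧ x j ≤ Real.sqrt (N (f (g j)))) →
      Tendsto (fun j => (x j : ℂ) * D (f (g j))) atTop (𝓝 L) → L = 0 := by
    intro g hg x L hx hL
    have h1 : Tendsto (fun j => (x j : ℂ) * D (f (g j))) atTop (𝓝 0) := by
      apply squeeze_zero_norm' _ (hsmall.comp hg)
      filter_upwards [hx] with j hj
      rw [norm_mul, Complex.norm_real, Real.norm_of_nonneg hj.1]
      exact mul_le_mul_of_nonneg_right hj.2 (norm_nonneg _)
    exact tendsto_nhds_unique hL h1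
  have hβ1 : ∀ᶠ k in atTop, ‖β k‖ ≤ 1 := by
    have := hβ0.norm
    rw [norm_zero] at this
    exact (this.eventually_lt_const one_pos).mono fun _ h => h.le
  have hβneg : ∀ w : ℂ, (∀ᶠ k in atTop, (β k * w ^ 2).re ≤ -c * ‖β k‖) →
      ∀ᶠ k in atTop, (β k * w ^ 2).re ≤ 0 := by
    intro w hw
    filter_upwards [hw] with k hk
    have := mul_nonneg hc.le (norm_nonneg (β k))
    linarith
  have hN1 : ∀ᶠ k in atTop, 1 ≤ N k := hN.eventually_ge_atTop 1
  by_cases hcase : Tendsto (fun j => N (f j) ^ ((1:ℝ) / 3) * ‖β (f j)‖) atTop atTop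
  · -- Gaussian regime
    have hbd : ∀ j, ((‖β (f j)‖⁻¹ : ℝ) : ℂ) * β (f j) ∈ Metric.closedBall (0:ℂ) 1 := by
      intro j
      rw [mem_closedBall_zero_iff, norm_mul, Complex.norm_real, norm_inv, norm_norm]
      by_cases h0 : ‖β (f j)‖ = 0
      · rw [h0]
        simp
      · rw [inv_mul_cancel₀ h0]
    obtain ⟨ω, _, g, hg, hω⟩ := (isCompact_closedBall (0:ℂ) 1).tendsto_subseq hbd
    have hgt : Tendsto g atTop atTop := hg.tendsto_atTop
    have hF : Tendsto (f ∘ g) atTop atTop := hft.comp hgt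
    have hbig : Tendsto (fun k => (N ∘ (f ∘ g)) k * ‖(β ∘ (f ∘ g)) k‖ ^ 3) atTop atTop := by
      have h1 := (tendsto_pow_atTop (α := ℝ) (n := 3) (by norm_num)).comp (hcase.comp hgt)
      refine h1.congr' ?_
      filter_upwards [hF.eventually hN1] with k hk
      simp only [Function.comp] at hk ⊢
      rw [mul_pow, ← Real.rpow_natCast, ← Real.rpow_mul (by linarith)]
      norm_num
    have hu := ray_gauss (hD.comp hF) hr hc hc' hM hMr (hN.comp hF) (hγ0.comp hF)
      (hF.eventually hγu) (hF.eventually hβu) (hF.eventually hβ1) (ω := ω) hω hbig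
    have hv := ray_gauss (hD'.comp hF) hr hc hc' hM hMr (hN.comp hF) (hγ0.comp hF)
      (hF.eventually hγv) (hF.eventually hβv) (hF.eventually hβ1) (ω := ω) hω hbig
    have hlim := (hu.const_mul u).sub (hv.const_mul v)
    have hpos : ∀ᶠ k in atTop, 0 < ‖(β ∘ (f ∘ g)) k‖ := by
      filter_upwards [hbig.eventually_gt_atTop 0] with k hk
      by_contra h
      have h0 : ‖(β ∘ (f ∘ g)) k‖ = 0 := le_antisymm (not_lt.mp h) (norm_nonneg _)
      rw [h0] at hk
      simp at hk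
    have hsec : ∀ w : ℂ, (∀ᶠ k in atTop, (β k * w ^ 2).re ≤ -c * ‖β k‖) → (ω * w ^ 2).re < 0 := by
      intro w hw
      have h1 : Tendsto (fun j => (((‖β (f (g j))‖⁻¹ : ℝ) : ℂ) * β (f (g j)) * w ^ 2).re) atTop
          (𝓝 (ω * w ^ 2).re) :=
        (Complex.continuous_re.tendsto _).comp (hω.mul_const (w ^ 2))
      have h2 : (ω * w ^ 2).re ≤ -c := by
        apply le_of_tendsto h1
        filter_upwards [hF.eventually hw, hpos] with k hk hk0
        simp only [Function.comp] at hk hk0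
        rw [mul_assoc, Complex.re_ofReal_mul]
        have h3 := mul_le_mul_of_nonneg_left hk (inv_nonneg.mpr (norm_nonneg (β (f (g k)))))
        have h4 : ‖β (f (g k))‖⁻¹ * (-c * ‖β (f (g k))‖) = -c := by
          field_simp
        linarith
      linarith
    have hne := gaussDiff_ne (hsec u hβu) (hsec v hβv) hG.obtuse
    have hzero := contra g hgt
      (fun k => Real.sqrt ((N ∘ (f ∘ g)) k * ‖(β ∘ (f ∘ g)) k‖)) _
      (by
        filter_upwards [hF.eventually hN1, hF.eventually hβ1] with k hk hk1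
        refine ⟨Real.sqrt_nonneg _, ?_⟩
        apply Real.sqrt_le_sqrt
        simp only [Function.comp]
        have : N (f (g k)) * ‖β (f (g k))‖ ≤ N (f (g k)) * 1 :=
          mul_le_mul_of_nonneg_left hk1 (by simp only [Function.comp] at hk; linarith)
        linarith)
      (hlim.congr fun k => by
        simp only [hDdef, Function.comp]
        ring)
    exact hne (sub_eq_zero.mp hzero)
  · -- cubic regime
    have hfr : ∃ R : ℝ, ∃ᶠ j in atTop, N (f j) ^ ((1:ℝ) / 3) * ‖β (f j)‖ < R := by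
      rw [tendsto_atTop] at hcase
      push Not at hcase
      obtain ⟨R, hR⟩ := hcase
      exact ⟨R, hR.mono fun j hj => hj⟩
    obtain ⟨R, hR⟩ := hfr
    obtain ⟨g0, hg0, hg0R⟩ := extraction_of_frequently_atTop hR
    have hbd : ∀ j, ((N (f (g0 j)) ^ ((1:ℝ) / 3) : ℝ) : ℂ) * β (f (g0 j))
        ∈ {z : ℂ | ‖z‖ ≤ R} ∨ ¬ (1 ≤ N (f (g0 j))) := by
      intro j
      by_cases h1 : 1 ≤ N (f (g0 j))
      · left
        simp only [mem_setOf_eq]
        rw [norm_mul, Complex.norm_real, Real.norm_of_nonneg (Real.rpow_nonneg (by linarith) _)]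
        exact (hg0R j).le
      · right
        exact h1
    -- drop finitely many terms
    have hev : ∀ᶠ j in atTop, 1 ≤ N (f (g0 j)) :=
      (hft.comp hg0.tendsto_atTop).eventually hN1
    obtain ⟨j0, hj0⟩ := eventually_atTop.mp hev
    have hbd2 : ∀ j, ((N (f (g0 (j + j0))) ^ ((1:ℝ) / 3) : ℝ) : ℂ) * β (f (g0 (j + j0)))
        ∈ Metric.closedBall (0:ℂ) R := by
      intro j
      rcases hbd (j + j0) with h | h
      · rw [mem_closedBall_zero_iff]
        exact h
      · exact absurd (hj0 (j + j0) (Nat.le_add_left _ _)) h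
    obtain ⟨b, _, g1, hg1, hb⟩ := (isCompact_closedBall (0:ℂ) R).tendsto_subseq hbd2
    set g : ℕ → ℕ := fun j => g0 (g1 j + j0) with hgdef
    have hgt : Tendsto g atTop atTop := by
      apply hg0.tendsto_atTop.comp
      exact tendsto_atTop_mono (fun j => Nat.le_add_right _ _) hg1.tendsto_atTop
    have hF : Tendsto (f ∘ g) atTop atTop := hft.comp hgt
    have hb' : Tendsto (fun k => (((N ∘ (f ∘ g)) k ^ ((1:ℝ) / 3) : ℝ) : ℂ) * (β ∘ (f ∘ g)) k)
        atTop (𝓝 b) := hb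
    have hu := ray_cubic (hD.comp hF) hr hc' hM hMr (hN.comp hF) (hγ0.comp hF)
      (hF.eventually hγu) (hF.eventually (hβneg u hβu)) hb'
    have hv := ray_cubic (hD'.comp hF) hr hc' hM hMr (hN.comp hF) (hγ0.comp hF)
      (hF.eventually hγv) (hF.eventually (hβneg v hβv)) hb'
    have hlim := (hu.const_mul u).sub (hv.const_mul v)
    have hsec : ∀ w : ℂ, (∀ᶠ k in atTop, (β k * w ^ 2).re ≤ -c * ‖β k‖) →
        (b * w ^ 2).re ≤ -c * ‖b‖ := by
      intro w hw
      have h1 : Tendsto (fun k => ((((N ∘ (f ∘ g)) k ^ ((1:ℝ) / 3) : ℝ) : ℂ)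
          * (β ∘ (f ∘ g)) k * w ^ 2).re) atTop (𝓝 (b * w ^ 2).re) :=
        (Complex.continuous_re.tendsto _).comp (hb'.mul_const (w ^ 2))
      have h2 : Tendsto (fun k => -c * ‖(((N ∘ (f ∘ g)) k ^ ((1:ℝ) / 3) : ℝ) : ℂ)
          * (β ∘ (f ∘ g)) k‖) atTop (𝓝 (-c * ‖b‖)) := (hb'.norm).const_mul (-c)
      apply le_of_tendsto_of_tendsto h1 h2
      filter_upwards [hF.eventually hw, hF.eventually hN1] with k hk hk1
      simp only [Function.comp] at hk hk1 ⊢
      have hnn : 0 ≤ N (f (g k)) ^ ((1:ℝ) / 3) := Real.rpow_nonneg (by linarith) _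
      rw [mul_assoc, Complex.re_ofReal_mul, norm_mul, Complex.norm_real, Real.norm_of_nonneg hnn]
      have := mul_le_mul_of_nonneg_left hk hnn
      linarith
    have hbb : b = 0 ∨ ((b * u ^ 2).re < 0 ∧ (b * v ^ 2).re < 0) := by
      by_cases h0 : b = 0
      · left; exact h0
      · right
        have hp : 0 < ‖b‖ := norm_pos_iff.mpr h0
        have := mul_pos hc hp
        exact ⟨by linarith [hsec u hβu], by linarith [hsec v hβv]⟩
    have hne := cubicDiff_ne hG.cube hG.ne hG.conj_eq hG.re_pos hG.im_pos hG.re3 hG.re2 hbb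
    have hzero := contra g hgt (fun k => (N ∘ (f ∘ g)) k ^ ((1:ℝ) / 3)) _
      (by
        filter_upwards [hF.eventually hN1] with k hk
        simp only [Function.comp] at hk ⊢
        refine ⟨Real.rpow_nonneg (by linarith) _, ?_⟩
        rw [Real.sqrt_eq_rpow]
        exact Real.rpow_le_rpow_of_exponent_le hk (by norm_num))
      (hlim.congr fun k => by
        simp only [hDdef, Function.comp]
        ring)
    exact hne (sub_eq_zero.mp hzero)

end Pool.Agent.Shadow75
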