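import Pool.Agent.Shadow75.Merge
import Pool.Agent.Shadow22.Airy

/-!
# Lower bound for the two-ray integral at a nearly degenerate saddle, arbitrary directions
-/

set_option autoImplicit false

open Complex MeasureTheory Set Filter Topology
open scoped ComplexConjugate

namespace Pool.Agent.Shadow75

/-- two directions in the two valleys adjacent to the hill direction `κ` of the cubic `γ0 s ^ 3` -/
structure RayPair (u v γ0 κ : ℂ) : Prop where
  cube : ∃ b : ℝ, 0 < b ∧ γ0 * κ ^ 3 = b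
  ne : κ ≠ 0
  u_re : 0 < (u / κ).re
  u_im : 0 < (u / κ).im
  u_re3 : ((u / κ) ^ 3).re < 0
  v_re : 0 < (v / κ).re
  v_im : (v / κ).im < 0
  v_re3 : ((v / κ) ^ 3).re < 0

theorem JR_eq (a b v : ℂ) : Pool.Agent.Shadow22.JR a b v =
    v * ∫ s in Ioi (0:ℝ), Complex.exp (a * v ^ 2 * (s:ℂ) ^ 2 + b * v ^ 3 * (s:ℂ) ^ 3) := by
  unfold Pool.Agent.Shadow22.JR
  rw [← integral_const_mul]
  apply setIntegral_congr_fun measurableSet_Ioi
  intro s _
  simp only
  rw [mul_comm (Complex.exp _) v]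
  congr 2
  ring

theorem RayPair.gauss_ne {u v γ0 κ ω : ℂ} (h : RayPair u v γ0 κ)
    (h0 : 0 < (ω * κ ^ 2).re) (h1 : (ω * u ^ 2).re < 0) (h2 : (ω * v ^ 2).re < 0) :
    u * ∫ s in Ioi (0:ℝ), Complex.exp (ω * u ^ 2 * (s:ℂ) ^ 2 + 0 * u ^ 3 * (s:ℂ) ^ 3) ≠
      v * ∫ s in Ioi (0:ℝ), Complex.exp (ω * v ^ 2 * (s:ℂ) ^ 2 + 0 * v ^ 3 * (s:ℂ) ^ 3) := by
  have hκ := h.ne
  have eu : κ * (u / κ) = u := by field_simp
  have ev : κ * (v / κ) = v := by field_simp
  have hω : ω ≠ 0 := by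
    rintro rfl
    simp at h0
  have e1 : ω * κ ^ 2 * (u / κ) ^ 2 = ω * u ^ 2 := by field_simp
  have e2 : ω * κ ^ 2 * (v / κ) ^ 2 = ω * v ^ 2 := by field_simp
  have hmain := Pool.Agent.Shadow22.JR_pair ω 0 κ (u / κ) (v / κ) 0 le_rfl hκ (by simp)
    h.u_re h.u_im h.u_re3 h.v_re h.v_im h.v_re3
    (Or.inr ⟨h0, by rw [e1]; exact h1, by rw [e2]; exact h2⟩) (Or.inl hω)
  rw [eu, ev, JR_eq, JR_eq] at hmain
  exact sub_ne_zero.mp hmain

theorem RayPair.cubic_ne {u v γ0 κ b : ℂ} (h : RayPair u v γ0 κ)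
    (hb : b = 0 ∨ (0 < (b * κ ^ 2).re ∧ (b * u ^ 2).re < 0 ∧ (b * v ^ 2).re < 0)) :
    u * ∫ s in Ioi (0:ℝ), Complex.exp (b * u ^ 2 * (s:ℂ) ^ 2 + γ0 * u ^ 3 * (s:ℂ) ^ 3) ≠
      v * ∫ s in Ioi (0:ℝ), Complex.exp (b * v ^ 2 * (s:ℂ) ^ 2 + γ0 * v ^ 3 * (s:ℂ) ^ 3) := by
  have hκ := h.ne
  have eu : κ * (u / κ) = u := by field_simp
  have ev : κ * (v / κ) = v := by field_simp
  obtain ⟨β, hβ, hβe⟩ := h.cube
  have hγ : γ0 ≠ 0 := by
    rintro rfl
    rw [zero_mul] at hβe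
    exact hβ.ne (by exact_mod_cast hβe)
  have e1 : b * κ ^ 2 * (u / κ) ^ 2 = b * u ^ 2 := by field_simp
  have e2 : b * κ ^ 2 * (v / κ) ^ 2 = b * v ^ 2 := by field_simp
  have hmain := Pool.Agent.Shadow22.JR_pair b γ0 κ (u / κ) (v / κ) β hβ.le hκ hβe
    h.u_re h.u_im h.u_re3 h.v_re h.v_im h.v_re3
    (by rw [e1, e2]; exact hb) (Or.inr hγ)
  rw [eu, ev, JR_eq, JR_eq] at hmain
  exact sub_ne_zero.mp hmain

/-- **Lower bound for the two-ray integral, uniform down to the degenerate saddle.** -/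
theorem two_ray_lower2 {N : ℕ → ℝ} {β γ : ℕ → ℂ} {u v γ0 κ : ℂ} {r M c c' : ℝ}
    {E E' : ℕ → ℝ → ℂ} (hG : RayPair u v γ0 κ)
    (hD : RayData N β γ u r M E) (hD' : RayData N β γ v r M E')
    (hr : 0 < r) (hc : 0 < c) (hc' : 0 < c') (hM : 0 ≤ M) (hMr : M * r ≤ c' / 2)
    (hN : Tendsto N atTop atTop) (hβ0 : Tendsto β atTop (𝓝 0)) (hγ0 : Tendsto γ atTop (𝓝 γ0))
    (hγu : ∀ᶠ k in atTop, (γ k * u ^ 3).re ≤ -c')
    (hγv : ∀ᶠ k in atTop, (γ k * v ^ 3).re ≤ -c')
    (hβu : ∀ᶠ k in atTop, (β k * u ^ 2).re ≤ -c * ‖β k‖)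
    (hβv : ∀ᶠ k in atTop, (β k * v ^ 2).re ≤ -c * ‖β k‖)
    (hβκ : ∀ᶠ k in atTop, c * ‖β k‖ ≤ (β k * κ ^ 2).re) :
    ∃ c1 : ℝ, 0 < c1 ∧ ∀ᶠ k in atTop, c1 ≤ Real.sqrt (N k) *
      ‖u * (∫ t in (0:ℝ)..r, E k t) - v * (∫ t in (0:ℝ)..r, E' k t)‖ := by
  by_contra hcon
  push Not at hcon
  set D : ℕ → ℂ := fun k => u * (∫ t in (0:ℝ)..r, E k t) - v * (∫ t in (0:ℝ)..r, E' k t) with hDdef
  have hfreq : ∀ j : ℕ, ∃ᶠ k in atTop, Real.sqrt (N k) * ‖D k‖ < 1 / ((j:ℝ) + 1) := by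
    intro j
    have h := hcon (1 / ((j:ℝ) + 1)) (by positivity)
    refine h.mono fun k hk => ?_
    exact hk
  obtain ⟨f, hf, hfj⟩ := extraction_forall_of_frequently hfreq
  have hft : Tendsto f atTop atTop := hf.tendsto_atTop
  have hsmall : Tendsto (fun j => Real.sqrt (N (f j)) * ‖D (f j)‖) atTop (𝓝 0) := by
    apply squeeze_zero (fun j => by positivity) (fun j => (hfj j).le)
    exact tendsto_one_div_add_atTop_nhds_zero_nat
  -- contradiction principle: no subsequence may have a nonzero scaled limit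
  have contra : ∀ (g : ℕ → ℕ), Tendsto g atTop atTop → ∀ (x : ℕ → ℝ) (L : ℂ),
      (∀ᶠ j in atTop, 0 ≤ x j ∧ x j ≤ Real.sqrt (N (f (g j)))) →
      Tendsto (fun j => (x j : ℂ) * D (f (g j))) atTop (𝓝 L) → L = 0 := by
    intro g hg x L hx hL
    have h1 : Tendsto (fun j => (x j : ℂ) * D (f (g j))) atTop (𝓝 0) := by
      apply squeeze_zero_norm' _ (hsmall.comp hg)
      filter_upwards [hx] with j hj
      rw [norm_mul, Complex.norm_real, Real.norm_of_nonneg hj.1]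
      exact mul_le_mul_of_nonneg_right hj.2 (norm_nonneg _)
    exact tendsto_nhds_unique hL h1
  have hβ1 : ∀ᶠ k in atTop, ‖β k‖ ≤ 1 := by
    have := hβ0.norm
    rw [norm_zero] at this
    exact (this.eventually_lt_const one_pos).mono fun _ h => h.le
  have hβneg : ∀ w : ℂ, (∀ᶠ k in atTop, (β k * w ^ 2).re ≤ -c * ‖β k‖) →
      ∀ᶠ k in atTop, (β k * w ^ 2).re ≤ 0 := by
    intro w hw
    filter_upwards [hw] with k hk
    have := mul_nonneg hc.le (norm_nonneg (β k))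
    linarith
  have hN1 : ∀ᶠ k in atTop, 1 ≤ N k := hN.eventually_ge_atTop 1
  by_cases hcase : Tendsto (fun j => N (f j) ^ ((1:ℝ) / 3) * ‖β (f j)‖) atTop atTop
  · -- Gaussian regime
    have hbd : ∀ j, ((‖β (f j)‖⁻¹ : ℝ) : ℂ) * β (f j) ∈ Metric.closedBall (0:ℂ) 1 := by
      intro j
      rw [mem_closedBall_zero_iff, norm_mul, Complex.norm_real, norm_inv, norm_norm]
      by_cases h0 : ‖β (f j)‖ = 0
      · rw [h0]
        simp
      · rw [inv_mul_cancel₀ h0]
    obtain ⟨ω, _, g, hg, hω⟩ := (isCompact_closedBall (0:ℂ) 1).tendsto_subseq hbd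
    have hgt : Tendsto g atTop atTop := hg.tendsto_atTop
    have hF : Tendsto (f ∘ g) atTop atTop := hft.comp hgt
    have hbig : Tendsto (fun k => (N ∘ (f ∘ g)) k * ‖(β ∘ (f ∘ g)) k‖ ^ 3) atTop atTop := by
      have h1 := (tendsto_pow_atTop (α := ℝ) (n := 3) (by norm_num)).comp (hcase.comp hgt)
      refine h1.congr' ?_
      filter_upwards [hF.eventually hN1] with k hk
      simp only [Function.comp] at hk ⊢
      rw [mul_pow, ← Real.rpow_natCast, ← Real.rpow_mul (by linarith)]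
      norm_num
    have hu := ray_gauss (hD.comp hF) hr hc hc' hM hMr (hN.comp hF) (hγ0.comp hF)
      (hF.eventually hγu) (hF.eventually hβu) (hF.eventually hβ1) (ω := ω) hω hbig
    have hv := ray_gauss (hD'.comp hF) hr hc hc' hM hMr (hN.comp hF) (hγ0.comp hF)
      (hF.eventually hγv) (hF.eventually hβv) (hF.eventually hβ1) (ω := ω) hω hbig
    have hlim := (hu.const_mul u).sub (hv.const_mul v)
    have hpos : ∀ᶠ k in atTop, 0 < ‖(β ∘ (f ∘ g)) k‖ := by
      filter_upwards [hbig.eventually_gt_atTop 0] with k hk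
      by_contra h
      have h0 : ‖(β ∘ (f ∘ g)) k‖ = 0 := le_antisymm (not_lt.mp h) (norm_nonneg _)
      rw [h0] at hk
      simp at hk
    have hsec : ∀ w : ℂ, (∀ᶠ k in atTop, (β k * w ^ 2).re ≤ -c * ‖β k‖) → (ω * w ^ 2).re < 0 := by
      intro w hw
      have h1 : Tendsto (fun j => (((‖β (f (g j))‖⁻¹ : ℝ) : ℂ) * β (f (g j)) * w ^ 2).re) atTop
          (𝓝 (ω * w ^ 2).re) :=
        (Complex.continuous_re.tendsto _).comp (hω.mul_const (w ^ 2))
      have h2 : (ω * w ^ 2).re ≤ -c := by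
        apply le_of_tendsto h1
        filter_upwards [hF.eventually hw, hpos] with k hk hk0
        simp only [Function.comp] at hk hk0
        rw [mul_assoc, Complex.re_ofReal_mul]
        have h3 := mul_le_mul_of_nonneg_left hk (inv_nonneg.mpr (norm_nonneg (β (f (g k)))))
        have h4 : ‖β (f (g k))‖⁻¹ * (-c * ‖β (f (g k))‖) = -c := by
          field_simp
        linarith
      linarith
    have hκω : 0 < (ω * κ ^ 2).re := by
      have h1 : Tendsto (fun j => (((‖β (f (g j))‖⁻¹ : ℝ) : ℂ) * β (f (g j)) * κ ^ 2).re) atTop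
          (𝓝 (ω * κ ^ 2).re) :=
        (Complex.continuous_re.tendsto _).comp (hω.mul_const (κ ^ 2))
      have h2 : c ≤ (ω * κ ^ 2).re := by
        apply ge_of_tendsto h1
        filter_upwards [hF.eventually hβκ, hpos] with k hk hk0
        simp only [Function.comp] at hk hk0
        rw [mul_assoc, Complex.re_ofReal_mul]
        have h3 := mul_le_mul_of_nonneg_left hk (inv_nonneg.mpr (norm_nonneg (β (f (g k)))))
        have h4 : ‖β (f (g k))‖⁻¹ * (c * ‖β (f (g k))‖) = c := by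
          field_simp
        linarith
      linarith
    have hne := hG.gauss_ne hκω (hsec u hβu) (hsec v hβv)
    have hzero := contra g hgt
      (fun k => Real.sqrt ((N ∘ (f ∘ g)) k * ‖(β ∘ (f ∘ g)) k‖)) _
      (by
        filter_upwards [hF.eventually hN1, hF.eventually hβ1] with k hk hk1
        refine ⟨Real.sqrt_nonneg _, ?_⟩
        apply Real.sqrt_le_sqrt
        simp only [Function.comp]
        have : N (f (g k)) * ‖β (f (g k))‖ ≤ N (f (g k)) * 1 :=
          mul_le_mul_of_nonneg_left hk1 (by simp only [Function.comp] at hk; linarith)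
        linarith)
      (hlim.congr fun k => by
        simp only [hDdef, Function.comp]
        ring)
    exact hne (sub_eq_zero.mp hzero)
  · -- cubic regime
    have hfr : ∃ R : ℝ, ∃ᶠ j in atTop, N (f j) ^ ((1:ℝ) / 3) * ‖β (f j)‖ < R := by
      rw [tendsto_atTop] at hcase
      push Not at hcase
      obtain ⟨R, hR⟩ := hcase
      exact ⟨R, hR.mono fun j hj => hj⟩
    obtain ⟨R, hR⟩ := hfr
    obtain ⟨g0, hg0, hg0R⟩ := extraction_of_frequently_atTop hR
    have hbd : ∀ j, ((N (f (g0 j)) ^ ((1:ℝ) / 3) : ℝ) : ℂ) * β (f (g0 j))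
        ∈ {z : ℂ | ‖z‖ ≤ R} ∨ ¬ (1 ≤ N (f (g0 j))) := by
      intro j
      by_cases h1 : 1 ≤ N (f (g0 j))
      · left
        simp only [mem_ofPred_eq]
        rw [norm_mul, Complex.norm_real, Real.norm_of_nonneg (Real.rpow_nonneg (by linarith) _)]
        exact (hg0R j).le
      · right
        exact h1
    -- drop finitely many terms
    have hev : ∀ᶠ j in atTop, 1 ≤ N (f (g0 j)) :=
      (hft.comp hg0.tendsto_atTop).eventually hN1
    obtain ⟨j0, hj0⟩ := eventually_atTop.mp hev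
    have hbd2 : ∀ j, ((N (f (g0 (j + j0))) ^ ((1:ℝ) / 3) : ℝ) : ℂ) * β (f (g0 (j + j0)))
        ∈ Metric.closedBall (0:ℂ) R := by
      intro j
      rcases hbd (j + j0) with h | h
      · rw [mem_closedBall_zero_iff]
        exact h
      · exact absurd (hj0 (j + j0) (Nat.le_add_left _ _)) h
    obtain ⟨b, _, g1, hg1, hb⟩ := (isCompact_closedBall (0:ℂ) R).tendsto_subseq hbd2
    set g : ℕ → ℕ := fun j => g0 (g1 j + j0) with hgdef
    have hgt : Tendsto g atTop atTop := by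
      apply hg0.tendsto_atTop.comp
      exact tendsto_atTop_mono (fun j => Nat.le_add_right _ _) hg1.tendsto_atTop
    have hF : Tendsto (f ∘ g) atTop atTop := hft.comp hgt
    have hb' : Tendsto (fun k => (((N ∘ (f ∘ g)) k ^ ((1:ℝ) / 3) : ℝ) : ℂ) * (β ∘ (f ∘ g)) k)
        atTop (𝓝 b) := hb
    have hu := ray_cubic (hD.comp hF) hr hc' hM hMr (hN.comp hF) (hγ0.comp hF)
      (hF.eventually hγu) (hF.eventually (hβneg u hβu)) hb'
    have hv := ray_cubic (hD'.comp hF) hr hc' hM hMr (hN.comp hF) (hγ0.comp hF)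
      (hF.eventually hγv) (hF.eventually (hβneg v hβv)) hb'
    have hlim := (hu.const_mul u).sub (hv.const_mul v)
    have hsec : ∀ w : ℂ, (∀ᶠ k in atTop, (β k * w ^ 2).re ≤ -c * ‖β k‖) →
        (b * w ^ 2).re ≤ -c * ‖b‖ := by
      intro w hw
      have h1 : Tendsto (fun k => ((((N ∘ (f ∘ g)) k ^ ((1:ℝ) / 3) : ℝ) : ℂ)
          * (β ∘ (f ∘ g)) k * w ^ 2).re) atTop (𝓝 (b * w ^ 2).re) :=
        (Complex.continuous_re.tendsto _).comp (hb'.mul_const (w ^ 2))
      have h2 : Tendsto (fun k => -c * ‖(((N ∘ (f ∘ g)) k ^ ((1:ℝ) / 3) : ℝ) : ℂ)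
          * (β ∘ (f ∘ g)) k‖) atTop (𝓝 (-c * ‖b‖)) := (hb'.norm).const_mul (-c)
      apply le_of_tendsto_of_tendsto h1 h2
      filter_upwards [hF.eventually hw, hF.eventually hN1] with k hk hk1
      simp only [Function.comp] at hk hk1 ⊢
      have hnn : 0 ≤ N (f (g k)) ^ ((1:ℝ) / 3) := Real.rpow_nonneg (by linarith) _
      rw [mul_assoc, Complex.re_ofReal_mul, norm_mul, Complex.norm_real, Real.norm_of_nonneg hnn]
      have := mul_le_mul_of_nonneg_left hk hnn
      linarith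
    have hsecκ : c * ‖b‖ ≤ (b * κ ^ 2).re := by
      have h1 : Tendsto (fun k => ((((N ∘ (f ∘ g)) k ^ ((1:ℝ) / 3) : ℝ) : ℂ)
          * (β ∘ (f ∘ g)) k * κ ^ 2).re) atTop (𝓝 (b * κ ^ 2).re) :=
        (Complex.continuous_re.tendsto _).comp (hb'.mul_const (κ ^ 2))
      have h2 : Tendsto (fun k => c * ‖(((N ∘ (f ∘ g)) k ^ ((1:ℝ) / 3) : ℝ) : ℂ)
          * (β ∘ (f ∘ g)) k‖) atTop (𝓝 (c * ‖b‖)) := (hb'.norm).const_mul c
      apply le_of_tendsto_of_tendsto h2 h1
      filter_upwards [hF.eventually hβκ, hF.eventually hN1] with k hk hk1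
      simp only [Function.comp] at hk hk1 ⊢
      have hnn : 0 ≤ N (f (g k)) ^ ((1:ℝ) / 3) := Real.rpow_nonneg (by linarith) _
      rw [mul_assoc _ _ (κ ^ 2), Complex.re_ofReal_mul, norm_mul, Complex.norm_real,
        Real.norm_of_nonneg hnn]
      have := mul_le_mul_of_nonneg_left hk hnn
      linarith
    have hbb : b = 0 ∨ (0 < (b * κ ^ 2).re ∧ (b * u ^ 2).re < 0 ∧ (b * v ^ 2).re < 0) := by
      by_cases h0 : b = 0
      · left; exact h0
      · right
        have hp : 0 < ‖b‖ := norm_pos_iff.mpr h0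
        have := mul_pos hc hp
        exact ⟨by linarith, by linarith [hsec u hβu], by linarith [hsec v hβv]⟩
    have hne := hG.cubic_ne hbb
    have hzero := contra g hgt (fun k => (N ∘ (f ∘ g)) k ^ ((1:ℝ) / 3)) _
      (by
        filter_upwards [hF.eventually hN1] with k hk
        simp only [Function.comp] at hk ⊢
        refine ⟨Real.rpow_nonneg (by linarith) _, ?_⟩
        rw [Real.sqrt_eq_rpow]
        exact Real.rpow_le_rpow_of_exponent_le hk (by norm_num))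
      (hlim.congr fun k => by
        simp only [hDdef, Function.comp]
        ring)
    exact hne (sub_eq_zero.mp hzero)


end Pool.Agent.Shadow75
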