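import Mathlib

/-!
# Derivatives of a polynomial as integrals over closed polygons

`segInt f a b` is the integral of `f` over the segment from `a` to `b`.  For a closed polygon
around `z` (sum of the logarithms of the successive quotients equal to `2 π i`) the integral of
`p(w) / (w - z)^(m+1)` is `2 π i` times the `m`-th Taylor coefficient of `p` at `z`.
-/

set_option autoImplicit false

open Complex MeasureTheory intervalIntegral

namespace Pool.Agent.Shadow75

/-- integral over the segment from `a` to `b` -/
noncomputable def segInt (f : ℂ → ℂ) (a b : ℂ) : ℂ :=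
  (b - a) * ∫ t in (0:ℝ)..1, f (a + t * (b - a))

theorem segInt_congr {f g : ℂ → ℂ} {a b : ℂ}
    (h : ∀ t ∈ Set.Icc (0:ℝ) 1, f (a + t * (b - a)) = g (a + t * (b - a))) :
    segInt f a b = segInt g a b := by
  unfold segInt
  congr 1
  apply intervalIntegral.integral_congr
  intro t ht
  rw [Set.uIcc_of_le zero_le_one] at ht
  exact h t ht

theorem segInt_self (f : ℂ → ℂ) (a : ℂ) : segInt f a a = 0 := by
  simp [segInt]

theorem segInt_smul (c : ℂ) (f : ℂ → ℂ) (a b : ℂ) :
    segInt (fun w => c * f w) a b = c * segInt f a b := by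
  unfold segInt
  rw [intervalIntegral.integral_const_mul]
  ring

theorem segInt_symm (f : ℂ → ℂ) (a b : ℂ) : segInt f b a = - segInt f a b := by
  unfold segInt
  have h := intervalIntegral.integral_comp_sub_left (a := (0:ℝ)) (b := 1)
    (fun t : ℝ => f (a + t * (b - a))) 1
  simp only [sub_zero, sub_self] at h
  have h2 : ∀ t : ℝ, f (b + t * (a - b)) = f (a + ((1 - t : ℝ) : ℂ) * (b - a)) := by
    intro t
    congr 1
    push_cast
    ring
  simp only [h2]
  rw [h]
  ring

/-- fundamental theorem of calculus along a segment -/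
theorem segInt_eq_sub {f F : ℂ → ℂ} {a b : ℂ}
    (hd : ∀ t ∈ Set.Icc (0:ℝ) 1, HasDerivAt F (f (a + t * (b - a))) (a + t * (b - a)))
    (hc : ContinuousOn (fun t : ℝ => f (a + t * (b - a))) (Set.Icc 0 1)) :
    segInt f a b = F b - F a := by
  have h1 : ∀ t ∈ Set.uIcc (0:ℝ) 1,
      HasDerivAt (fun t : ℝ => F (a + t * (b - a))) ((b - a) * f (a + t * (b - a))) t := by
    intro t ht
    rw [Set.uIcc_of_le zero_le_one] at ht
    have hl : HasDerivAt (fun t : ℝ => a + (t : ℂ) * (b - a)) (b - a) t := by
      have h := ((Complex.ofRealCLM.hasDerivAt (x := t)).mul_const (b - a)).const_add a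
      simpa using h
    have := (hd t ht).scomp t hl
    simpa [smul_eq_mul, Function.comp_def] using this
  have h2 : IntervalIntegrable (fun t : ℝ => (b - a) * f (a + t * (b - a))) volume 0 1 := by
    apply ContinuousOn.intervalIntegrable
    rw [Set.uIcc_of_le zero_le_one]
    exact continuousOn_const.mul hc
  have h3 := intervalIntegral.integral_eq_sub_of_hasDerivAt h1 h2
  unfold segInt
  rw [← intervalIntegral.integral_const_mul, h3]
  simp

/-- splitting a segment -/
theorem norm_segInt_le {f : ℂ → ℂ} {a b : ℂ} {C : ℝ}
    (h : ∀ t ∈ Set.Icc (0:ℝ) 1, ‖f (a + t * (b - a))‖ ≤ C) :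
    ‖segInt f a b‖ ≤ C * ‖b - a‖ := by
  unfold segInt
  rw [norm_mul, mul_comm]
  apply mul_le_mul_of_nonneg_right _ (norm_nonneg _)
  have := intervalIntegral.norm_integral_le_of_norm_le_const (a := (0:ℝ)) (b := 1) (C := C)
    (f := fun t : ℝ => f (a + t * (b - a))) (by
      intro t ht
      rw [Set.uIoc_of_le zero_le_one] at ht
      exact h t ⟨ht.1.le, ht.2⟩)
  simpa using this

/-- the points of the segment stay off `z` if the quotient of the end points is in the slit plane -/
theorem slit_of_seg {z a b : ℂ} (hs : (b - z) / (a - z) ∈ Complex.slitPlane)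
    {t : ℝ} (ht : t ∈ Set.Icc (0:ℝ) 1) :
    (a + t * (b - a) - z) / (a - z) ∈ Complex.slitPlane := by
  have ha : a - z ≠ 0 := by
    intro h
    rw [h, div_zero] at hs
    exact Complex.zero_notMem_slitPlane hs
  have h1 : (a + t * (b - a) - z) / (a - z) = (1 - t : ℝ) + t * ((b - z) / (a - z)) := by
    field_simp
    push_cast
    ring
  rw [h1]
  rw [Complex.mem_slitPlane_iff] at hs ⊢
  simp only [Complex.add_re, Complex.add_im, Complex.ofReal_re, Complex.ofReal_im,
    Complex.mul_re, Complex.mul_im, zero_mul, sub_zero, add_zero, zero_add]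
  rcases hs with hs | hs
  · left
    rcases ht.1.lt_or_eq with h0 | h0
    · have := mul_pos h0 hs
      linarith [ht.2]
    · rw [← h0]
      norm_num
  · rcases ht.1.lt_or_eq with h0 | h0
    · right
      exact mul_ne_zero h0.ne' hs
    · left
      rw [← h0]
      norm_num

theorem ne_of_seg {z a b : ℂ} (hs : (b - z) / (a - z) ∈ Complex.slitPlane)
    {t : ℝ} (ht : t ∈ Set.Icc (0:ℝ) 1) : a + t * (b - a) - z ≠ 0 := by
  intro h
  have := slit_of_seg hs ht
  rw [h, zero_div] at this
  exact Complex.zero_notMem_slitPlane this

/-- the integral of `1/(w-z)` -/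
theorem segInt_inv {z a b : ℂ} (hs : (b - z) / (a - z) ∈ Complex.slitPlane) :
    segInt (fun w => (w - z)⁻¹) a b = Complex.log ((b - z) / (a - z)) := by
  have ha : a - z ≠ 0 := by
    have := ne_of_seg hs (t := 0) (by simp)
    simpa using this
  have h := segInt_eq_sub (f := fun w => (w - z)⁻¹)
    (F := fun w => Complex.log ((w - z) / (a - z))) (a := a) (b := b) (by
      intro t ht
      have h1 := slit_of_seg hs ht
      have h2 : HasDerivAt (fun w : ℂ => (w - z) / (a - z)) (1 / (a - z))
          (a + t * (b - a)) := ((hasDerivAt_id _).sub_const z).div_const (a - z)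
      have h3 := h2.clog h1
      convert h3 using 1
      have h4 := ne_of_seg hs ht
      field_simp) (by
      apply ContinuousOn.inv₀
      · fun_prop
      · intro t ht
        exact ne_of_seg hs ht)
  rw [h]
  simp [div_self ha]

/-- the primitive of the part without residue -/
noncomputable def prim (p : Polynomial ℂ) (z : ℂ) (m : ℕ) (w : ℂ) : ℂ :=
  ∑ k ∈ Finset.range (p.natDegree + 1),
    if k = m then 0 else
      (Polynomial.taylor z p).coeff k * ((w - z) ^ ((k : ℤ) - m) / ((k : ℂ) - m))

theorem hasDerivAt_zpow_div {z w : ℂ} (hw : w - z ≠ 0) {k m : ℕ} (hk : k ≠ m) :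
    HasDerivAt (fun w : ℂ => (w - z) ^ ((k : ℤ) - m) / ((k : ℂ) - m))
      ((w - z) ^ k / (w - z) ^ (m + 1)) w := by
  have hkm : ((k : ℂ) - m) ≠ 0 := by
    intro h
    exact hk (by exact_mod_cast sub_eq_zero.mp h)
  have h1 := hasDerivAt_zpow ((k : ℤ) - m) (w - z) (Or.inl hw)
  have h2 := (h1.comp w ((hasDerivAt_id w).sub_const z)).div_const ((k : ℂ) - m)
  have h3 : (w - z) ^ k / (w - z) ^ (m + 1) = (w - z) ^ ((k : ℤ) - m - 1) := by
    rw [← zpow_natCast, ← zpow_natCast, ← zpow_sub₀ hw]
    congr 1
    push_cast
    ring
  rw [h3]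
  have h4 : ((((k : ℤ) - m : ℤ) : ℂ) * (w - z) ^ ((k : ℤ) - m - 1) * 1) / ((k : ℂ) - m)
      = (w - z) ^ ((k : ℤ) - m - 1) := by
    rw [div_eq_iff hkm]
    push_cast
    ring
  rw [h4] at h2
  exact h2

theorem eval_eq_taylor_sum (p : Polynomial ℂ) (z w : ℂ) :
    p.eval w = ∑ k ∈ Finset.range (p.natDegree + 1),
      (Polynomial.taylor z p).coeff k * (w - z) ^ k := by
  have h := Polynomial.taylor_eval z p (w - z)
  rw [sub_add_cancel] at h
  rw [← h, Polynomial.eval_eq_sum_range, Polynomial.natDegree_taylor]

/-- one segment -/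
theorem segInt_coeff (p : Polynomial ℂ) {z a b : ℂ} (m : ℕ)
    (hs : (b - z) / (a - z) ∈ Complex.slitPlane) :
    segInt (fun w => p.eval w / (w - z) ^ (m + 1)) a b =
      prim p z m b - prim p z m a
        + (Polynomial.taylor z p).coeff m * Complex.log ((b - z) / (a - z)) := by
  have ha : a - z ≠ 0 := by
    have := ne_of_seg hs (t := 0) (by simp)
    simpa using this
  have h := segInt_eq_sub (f := fun w => p.eval w / (w - z) ^ (m + 1))
    (F := fun w => prim p z m w
      + (Polynomial.taylor z p).coeff m * Complex.log ((w - z) / (a - z)))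
    (a := a) (b := b) (by
      intro t ht
      have hne := ne_of_seg hs ht
      set w := a + t * (b - a) with hw
      have hlog : HasDerivAt (fun w : ℂ => Complex.log ((w - z) / (a - z))) ((w - z)⁻¹) w := by
        have h1 := slit_of_seg hs ht
        have h2 : HasDerivAt (fun w : ℂ => (w - z) / (a - z)) (1 / (a - z)) w :=
          ((hasDerivAt_id _).sub_const z).div_const (a - z)
        have h3 := h2.clog h1
        convert h3 using 1
        field_simp
      have hprim : HasDerivAt (fun w => prim p z m w)
          (∑ k ∈ Finset.range (p.natDegree + 1), if k = m then 0 else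
            (Polynomial.taylor z p).coeff k * ((w - z) ^ k / (w - z) ^ (m + 1))) w := by
        unfold prim
        apply HasDerivAt.fun_sum
        intro k _
        by_cases hk : k = m
        · simp only [hk, if_true]
          exact hasDerivAt_const _ _
        · simp only [hk, if_false]
          exact (hasDerivAt_zpow_div hne hk).const_mul _
      have hsum : HasDerivAt (fun w => prim p z m w
          + (Polynomial.taylor z p).coeff m * Complex.log ((w - z) / (a - z)))
          ((∑ k ∈ Finset.range (p.natDegree + 1), if k = m then 0 else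
            (Polynomial.taylor z p).coeff k * ((w - z) ^ k / (w - z) ^ (m + 1)))
            + (Polynomial.taylor z p).coeff m * (w - z)⁻¹) w :=
        hprim.add (hlog.const_mul ((Polynomial.taylor z p).coeff m))
      refine hsum.congr_deriv ?_
      symm
      rw [eval_eq_taylor_sum p z w, Finset.sum_div]
      have hcm : (Polynomial.taylor z p).coeff m * (w - z)⁻¹ =
          ∑ k ∈ Finset.range (p.natDegree + 1), if k = m then
            (Polynomial.taylor z p).coeff k * ((w - z) ^ k / (w - z) ^ (m + 1)) else 0 := by
        rw [Finset.sum_ite_eq']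
        have e1 : (w - z) ^ m / (w - z) ^ (m + 1) = (w - z)⁻¹ := by
          rw [pow_succ]
          field_simp
        rw [e1]
        split_ifs with hm
        · rfl
        · have : (Polynomial.taylor z p).coeff m = 0 := by
            apply Polynomial.coeff_eq_zero_of_natDegree_lt
            rw [Polynomial.natDegree_taylor]
            simpa using hm
          rw [this, zero_mul]
      rw [hcm, ← Finset.sum_add_distrib]
      apply Finset.sum_congr rfl
      intro k _
      by_cases hk : k = m
      · simp only [hk, if_true, zero_add]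
        ring
      · simp only [hk, if_false, add_zero]
        ring) (by
      apply ContinuousOn.div
      · exact (p.continuous.comp (by fun_prop)).continuousOn
      · fun_prop
      · intro t ht
        exact pow_ne_zero _ (ne_of_seg hs ht))
  rw [h]
  simp only [div_self ha, Complex.log_one, mul_zero, add_zero]
  ring

/-- sum of the segment integrals along a list of vertices -/
noncomputable def polyInt (f : ℂ → ℂ) : List ℂ → ℂ
  | [] => 0
  | [_] => 0
  | a :: b :: l => segInt f a b + polyInt f (b :: l)

/-- sum of the logarithms of the successive quotients -/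
noncomputable def polyLog (z : ℂ) : List ℂ → ℂ
  | [] => 0
  | [_] => 0
  | a :: b :: l => Complex.log ((b - z) / (a - z)) + polyLog z (b :: l)

/-- every segment is seen from `z` under an angle `< π` -/
def PolyOff (z : ℂ) : List ℂ → Prop
  | [] => True
  | [_] => True
  | a :: b :: l => (b - z) / (a - z) ∈ Complex.slitPlane ∧ PolyOff z (b :: l)

theorem polyInt_coeff (p : Polynomial ℂ) {z : ℂ} (m : ℕ) :
    ∀ (l : List ℂ) (a : ℂ), PolyOff z (a :: l) →
    polyInt (fun w => p.eval w / (w - z) ^ (m + 1)) (a :: l) =
      prim p z m ((a :: l).getLast (by simp)) - prim p z m a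
        + (Polynomial.taylor z p).coeff m * polyLog z (a :: l)
  | [], a, _ => by simp [polyInt, polyLog]
  | b :: l, a, h => by
      have ih := polyInt_coeff p m l b h.2
      rw [polyInt, polyLog, ih, segInt_coeff p m h.1]
      simp only [List.getLast_cons_cons]
      ring

/-- closed polygon: `m`-th derivative as an integral -/
theorem polyInt_closed (p : Polynomial ℂ) {z : ℂ} (m : ℕ) (l : List ℂ) (a : ℂ)
    (hoff : PolyOff z (a :: l)) (hclosed : (a :: l).getLast (by simp) = a)
    (hwind : polyLog z (a :: l) = 2 * Real.pi * I) :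
    polyInt (fun w => p.eval w / (w - z) ^ (m + 1)) (a :: l) =
      2 * Real.pi * I * ((Polynomial.derivative^[m] p).eval z / (m.factorial : ℂ)) := by
  rw [polyInt_coeff p m l a hoff, hclosed, hwind]
  have h : (Polynomial.taylor z p).coeff m
      = (Polynomial.derivative^[m] p).eval z / (m.factorial : ℂ) := by
    rw [Polynomial.taylor_coeff]
    have h1 := congrArg (fun q => Polynomial.eval z (q p)) (Polynomial.factorial_smul_hasseDeriv (R := ℂ) m)
    simp only [LinearMap.smul_apply, Polynomial.eval_smul, nsmul_eq_mul] at h1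
    have h2 : (m.factorial : ℂ) ≠ 0 := by exact_mod_cast m.factorial_ne_zero
    rw [eq_div_iff h2, mul_comm]
    simpa using h1
  rw [h]
  ring

end Pool.Agent.Shadow75
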