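import Mathlib

/-!
# Moments of `exp (u^3 s^3/3 - ζ u s)` on the half line

`G u k ζ = ∫_0^∞ (u s)^k u exp (u^3 s^3 / 3 - ζ u s) ds`, for `Re (u^3) < 0`.
-/

set_option autoImplicit false

open Complex MeasureTheory Set Filter Topology

namespace Pool.Agent.Shadow75

/-- the integrand -/
noncomputable def gk (u : ℂ) (k : ℕ) (ζ : ℂ) (s : ℝ) : ℂ :=
  (u * s) ^ k * u * Complex.exp (u ^ 3 * s ^ 3 / 3 - ζ * (u * s))

noncomputable def G (u : ℂ) (k : ℕ) (ζ : ℂ) : ℂ := ∫ s in Ioi (0:ℝ), gk u k ζ s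

theorem gk_continuous (u : ℂ) (k : ℕ) (ζ : ℂ) : Continuous (gk u k ζ) := by
  unfold gk
  fun_prop

theorem norm_gk (u : ℂ) (k : ℕ) (ζ : ℂ) (s : ℝ) :
    ‖gk u k ζ s‖ = (‖u‖ * |s|) ^ k * ‖u‖ * Real.exp ((u ^ 3).re * s ^ 3 / 3 - (ζ * u).re * s) := by
  unfold gk
  rw [norm_mul, norm_mul, norm_pow, norm_mul, Complex.norm_exp]
  have h : (u ^ 3 * (s:ℂ) ^ 3 / 3 - ζ * (u * s)).re = (u ^ 3).re * s ^ 3 / 3 - (ζ * u).re * s := by
    have h1 : u ^ 3 * (s:ℂ) ^ 3 / 3 - ζ * (u * s)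
        = ((s ^ 3 / 3 : ℝ) : ℂ) * u ^ 3 - (s : ℂ) * (ζ * u) := by
      push_cast
      ring
    rw [h1, Complex.sub_re, Complex.re_ofReal_mul, Complex.re_ofReal_mul]
    ring
  rw [h]
  simp [Complex.norm_real]

/-- polynomial bound for the exponent: for every `a > 0` and `B` there is `C` with
`- a s^3 + B s ≤ C - s` for `s ≥ 0` -/
theorem cubic_bound {a : ℝ} (ha : 0 < a) (B : ℝ) :
    ∃ C : ℝ, ∀ s : ℝ, 0 ≤ s → - a * s ^ 3 + B * s ≤ C - s := by
  -- with `M = |B| + 1`: `M s ≤ a s^3 + C`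
  set M := |B| + 1 with hM
  refine ⟨M * (M / a + 1), fun s hs => ?_⟩
  have hM0 : 0 < M := by positivity
  have hB : B ≤ |B| := le_abs_self B
  have h1 : B * s + s ≤ M * s := by nlinarith
  by_cases h : s ≤ M / a + 1
  · have h2 : M * s ≤ M * (M / a + 1) := mul_le_mul_of_nonneg_left h hM0.le
    have h3 : 0 ≤ a * s ^ 3 := by positivity
    nlinarith
  · push Not at h
    have h4 : 1 ≤ s := by
      have : 0 < M / a := by positivity
      linarith
    have h5 : M ≤ a * s := by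
      have : M / a < s := by linarith
      rw [div_lt_iff₀ ha] at this
      linarith
    have h6 : M * s ≤ a * s ^ 3 := by
      have : a * s * s ≤ a * s ^ 3 := by
        have h7 : s * s ≤ s ^ 3 := by nlinarith
        nlinarith
      nlinarith
    have h8 : 0 ≤ M * (M / a + 1) := by positivity
    nlinarith

/-- domination, locally uniform in `ζ` -/
theorem gk_dominated {u : ℂ} (hu : (u ^ 3).re < 0) (k : ℕ) (Z : ℝ) :
    ∃ g : ℝ → ℝ, IntegrableOn g (Ioi 0) ∧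
      ∀ ζ : ℂ, ‖ζ‖ ≤ Z → ∀ s ∈ Ioi (0:ℝ), ‖gk u k ζ s‖ ≤ g s := by
  obtain ⟨C, hC⟩ := cubic_bound (a := -(u ^ 3).re / 3) (by linarith) (Z * ‖u‖)
  refine ⟨fun s => ‖u‖ ^ k * ‖u‖ * Real.exp C * (s ^ k * Real.exp (-s)), ?_, ?_⟩
  · apply Integrable.const_mul
    have h := Real.GammaIntegral_convergent (s := (k : ℝ) + 1) (by positivity)
    refine (h.congr_fun ?_ measurableSet_Ioi)
    intro s hs
    simp only [add_sub_cancel_right, Real.rpow_natCast]
    ring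
  · intro ζ hζ s hs
    have hs0 : (0:ℝ) < s := hs
    rw [norm_gk, abs_of_pos hs0, mul_pow]
    have h1 : (u ^ 3).re * s ^ 3 / 3 - (ζ * u).re * s ≤ C - s := by
      have h2 := hC s hs0.le
      have h3 : -(ζ * u).re ≤ Z * ‖u‖ := by
        have h4 := Complex.abs_re_le_norm (ζ * u)
        rw [norm_mul] at h4
        have h5 := neg_abs_le (ζ * u).re
        have h6 : ‖ζ‖ * ‖u‖ ≤ Z * ‖u‖ := mul_le_mul_of_nonneg_right hζ (norm_nonneg _)
        linarith
      nlinarith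
    have h2 : Real.exp ((u ^ 3).re * s ^ 3 / 3 - (ζ * u).re * s)
        ≤ Real.exp C * Real.exp (-s) := by
      rw [← Real.exp_add]
      exact Real.exp_le_exp.mpr (by linarith)
    calc ‖u‖ ^ k * s ^ k * ‖u‖ * Real.exp ((u ^ 3).re * s ^ 3 / 3 - (ζ * u).re * s)
        ≤ ‖u‖ ^ k * s ^ k * ‖u‖ * (Real.exp C * Real.exp (-s)) := by
          apply mul_le_mul_of_nonneg_left h2
          positivity
      _ = ‖u‖ ^ k * ‖u‖ * Real.exp C * (s ^ k * Real.exp (-s)) := by ring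

theorem gk_integrable {u : ℂ} (hu : (u ^ 3).re < 0) (k : ℕ) (ζ : ℂ) :
    IntegrableOn (gk u k ζ) (Ioi 0) := by
  obtain ⟨g, hg, hdom⟩ := gk_dominated hu k ‖ζ‖
  refine Integrable.mono' hg (gk_continuous u k ζ).aestronglyMeasurable ?_
  rw [ae_restrict_iff' measurableSet_Ioi]
  exact Eventually.of_forall fun s hs => hdom ζ le_rfl s hs

theorem gk_hasDerivAt (u : ℂ) (k : ℕ) (s : ℝ) (ζ : ℂ) :
    HasDerivAt (fun ζ => gk u k ζ s) (- gk u (k + 1) ζ s) ζ := by
  unfold gk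
  have h1 : HasDerivAt (fun ζ : ℂ => u ^ 3 * (s:ℂ) ^ 3 / 3 - ζ * (u * s)) (-(u * s)) ζ := by
    have := ((hasDerivAt_id ζ).mul_const (u * (s:ℂ))).const_sub (u ^ 3 * (s:ℂ) ^ 3 / 3)
    simpa using this
  have h2 := (h1.cexp).const_mul ((u * (s:ℂ)) ^ k * u)
  refine h2.congr_deriv ?_
  ring

theorem G_hasDerivAt {u : ℂ} (hu : (u ^ 3).re < 0) (k : ℕ) (ζ : ℂ) :
    HasDerivAt (G u k) (- G u (k + 1) ζ) ζ := by
  obtain ⟨g, hg, hdom⟩ := gk_dominated hu (k + 1) (‖ζ‖ + 1)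
  have h := hasDerivAt_integral_of_dominated_loc_of_deriv_le
    (μ := volume.restrict (Ioi (0:ℝ)))
    (F := fun ζ s => gk u k ζ s) (F' := fun ζ s => - gk u (k + 1) ζ s) (x₀ := ζ)
    (s := Metric.ball ζ 1) (bound := g)
    (Metric.ball_mem_nhds ζ one_pos)
    (Eventually.of_forall fun ζ => (gk_continuous u k ζ).aestronglyMeasurable)
    (gk_integrable hu k ζ)
    (gk_continuous u (k + 1) ζ).neg.aestronglyMeasurable
    (by
      rw [ae_restrict_iff' measurableSet_Ioi]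
      refine Eventually.of_forall fun s hs ζ' hζ' => ?_
      rw [norm_neg]
      apply hdom ζ' _ s hs
      have h1 : ‖ζ' - ζ‖ < 1 := by
        rwa [Metric.mem_ball, dist_eq_norm] at hζ'
      calc ‖ζ'‖ = ‖ζ + (ζ' - ζ)‖ := by ring_nf
        _ ≤ ‖ζ‖ + ‖ζ' - ζ‖ := norm_add_le _ _
        _ ≤ ‖ζ‖ + 1 := by linarith)
    hg
    (by
      refine Eventually.of_forall fun s ζ' _ => ?_
      exact gk_hasDerivAt u k s ζ')
  have h2 := h.2
  rw [integral_neg] at h2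
  exact h2

/-- the primitive in `s` -/
theorem exp_hasDerivAt (u ζ : ℂ) (s : ℝ) :
    HasDerivAt (fun s : ℝ => Complex.exp (u ^ 3 * (s:ℂ) ^ 3 / 3 - ζ * (u * s)))
      (gk u 2 ζ s - ζ * gk u 0 ζ s) s := by
  have hs : HasDerivAt (fun s : ℝ => (s : ℂ)) 1 s := by
    simpa using (hasDerivAt_id s).ofReal_comp
  have h1 : HasDerivAt (fun s : ℝ => u ^ 3 * (s:ℂ) ^ 3 / 3 - ζ * (u * s))
      (u ^ 3 * (3 * (s:ℂ) ^ 2 * 1) / 3 - ζ * (u * 1)) s := by
    have h2 := ((hs.pow 3).const_mul (u ^ 3)).div_const 3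
    have h3 := (hs.const_mul u).const_mul ζ
    have h4 := h2.sub h3
    refine h4.congr_deriv ?_
    norm_num
  refine h1.cexp.congr_deriv ?_
  unfold gk
  ring

theorem exp_tendsto_zero {u : ℂ} (hu : (u ^ 3).re < 0) (ζ : ℂ) :
    Tendsto (fun s : ℝ => Complex.exp (u ^ 3 * (s:ℂ) ^ 3 / 3 - ζ * (u * s))) atTop (𝓝 0) := by
  obtain ⟨C, hC⟩ := cubic_bound (a := -(u ^ 3).re / 3) (by linarith) (‖ζ‖ * ‖u‖)
  rw [tendsto_zero_iff_norm_tendsto_zero]
  have h0 : Tendsto (fun s : ℝ => Real.exp C * Real.exp (-s)) atTop (𝓝 0) := by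
    have := (Real.tendsto_exp_neg_atTop_nhds_zero).const_mul (Real.exp C)
    simpa using this
  refine squeeze_zero' (Eventually.of_forall fun s => norm_nonneg _) ?_ h0
  filter_upwards [eventually_ge_atTop (0:ℝ)] with s hs
  rw [Complex.norm_exp, ← Real.exp_add]
  apply Real.exp_le_exp.mpr
  have h : (u ^ 3 * (s:ℂ) ^ 3 / 3 - ζ * (u * s)).re = (u ^ 3).re * s ^ 3 / 3 - (ζ * u).re * s := by
    have h1 : u ^ 3 * (s:ℂ) ^ 3 / 3 - ζ * (u * s)
        = ((s ^ 3 / 3 : ℝ) : ℂ) * u ^ 3 - (s : ℂ) * (ζ * u) := by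
      push_cast
      ring
    rw [h1, Complex.sub_re, Complex.re_ofReal_mul, Complex.re_ofReal_mul]
    ring
  rw [h]
  have h2 := hC s hs
  have h3 : -(ζ * u).re ≤ ‖ζ‖ * ‖u‖ := by
    have h4 := Complex.abs_re_le_norm (ζ * u)
    rw [norm_mul] at h4
    have h5 := neg_abs_le (ζ * u).re
    linarith
  nlinarith

/-- the ODE for one ray -/
theorem G_ode {u : ℂ} (hu : (u ^ 3).re < 0) (ζ : ℂ) : G u 2 ζ - ζ * G u 0 ζ = -1 := by
  have h := integral_Ioi_of_hasDerivAt_of_tendsto' (a := (0:ℝ))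
    (f := fun s : ℝ => Complex.exp (u ^ 3 * (s:ℂ) ^ 3 / 3 - ζ * (u * s)))
    (f' := fun s => gk u 2 ζ s - ζ * gk u 0 ζ s) (m := 0)
    (fun s _ => exp_hasDerivAt u ζ s)
    ((gk_integrable hu 2 ζ).sub ((gk_integrable hu 0 ζ).const_mul ζ))
    (exp_tendsto_zero hu ζ)
  have h2 : ∫ s in Ioi (0:ℝ), (gk u 2 ζ s - ζ * gk u 0 ζ s) = G u 2 ζ - ζ * G u 0 ζ := by
    unfold G
    rw [integral_sub (gk_integrable hu 2 ζ) ((gk_integrable hu 0 ζ).const_mul ζ),
      integral_const_mul]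
  rw [← h2, h]
  simp

/-- decay along a horizontal line -/
theorem G_tendsto_zero {u : ℂ} (hu : (u ^ 3).re < 0) (hu1 : 0 < u.re) (k : ℕ) (ζ : ℂ) :
    Tendsto (fun x : ℝ => G u k (ζ + x)) atTop (𝓝 0) := by
  obtain ⟨g, hg, hdom⟩ := gk_dominated hu k ‖ζ‖
  have key : ∀ x : ℝ, ∀ s : ℝ, gk u k (ζ + x) s
      = gk u k ζ s * Complex.exp (-(x * (u * s))) := by
    intro x s
    unfold gk
    rw [mul_assoc, mul_assoc, mul_assoc, ← Complex.exp_add]
    congr 3
    ring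
  have hnorm : ∀ x : ℝ, ∀ s : ℝ, ‖Complex.exp (-((x:ℂ) * (u * s)))‖ = Real.exp (-(x * (u.re * s))) := by
    intro x s
    rw [Complex.norm_exp]
    congr 1
    rw [Complex.neg_re, Complex.re_ofReal_mul]
    congr 1
    have : u * (s:ℂ) = (s:ℂ) * u := mul_comm _ _
    rw [this, Complex.re_ofReal_mul]
    ring
  have h := tendsto_integral_filter_of_dominated_convergence
    (μ := volume.restrict (Ioi (0:ℝ))) (l := atTop) (F := fun (x : ℝ) s => gk u k (ζ + x) s)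
    (f := fun _ => (0:ℂ)) g
    (Eventually.of_forall fun x => (gk_continuous u k _).aestronglyMeasurable)
    (by
      filter_upwards [eventually_ge_atTop (0:ℝ)] with x hx
      rw [ae_restrict_iff' measurableSet_Ioi]
      refine Eventually.of_forall fun s hs => ?_
      have hs0 : (0:ℝ) < s := hs
      rw [key, norm_mul, hnorm]
      have h1 : Real.exp (-(x * (u.re * s))) ≤ 1 := by
        apply Real.exp_le_one_iff.mpr
        have : 0 ≤ x * (u.re * s) := by positivity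
        linarith
      calc ‖gk u k ζ s‖ * Real.exp (-(x * (u.re * s))) ≤ ‖gk u k ζ s‖ * 1 :=
            mul_le_mul_of_nonneg_left h1 (norm_nonneg _)
        _ ≤ g s := by rw [mul_one]; exact hdom ζ le_rfl s hs)
    hg
    (by
      rw [ae_restrict_iff' measurableSet_Ioi]
      refine Eventually.of_forall fun s hs => ?_
      have hs0 : (0:ℝ) < s := hs
      rw [tendsto_zero_iff_norm_tendsto_zero]
      have h1 : Tendsto (fun x : ℝ => ‖gk u k ζ s‖ * Real.exp (-(x * (u.re * s)))) atTop (𝓝 0) := by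
        have h2 : Tendsto (fun x : ℝ => Real.exp (-(x * (u.re * s)))) atTop (𝓝 0) := by
          apply Real.tendsto_exp_neg_atTop_nhds_zero.comp
          exact tendsto_id.atTop_mul_const (by positivity)
        simpa using h2.const_mul ‖gk u k ζ s‖
      refine h1.congr fun x => ?_
      rw [key, norm_mul, hnorm])
  simpa [G] using h

end Pool.Agent.Shadow75
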